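import Pool.Agent.V1172.MIP.Ext

/-! Symbols of central elements (odd characteristic). -/

set_option linter.unusedSectionVars false
set_option linter.unusedSimpArgs false

namespace Pool.Agent.V1172.MIP

open Finset MonoidAlgebra

variable {F : Type*} [Field F] {G : Type*} [Group G] {Q : Type*} [CommGroup Q]

lemma sum_coeff [Fintype G] (y : MonoidAlgebra F G) :
    y = ∑ g, y.coeff g • MonoidAlgebra.single g (1 : F) := by
  classical
  refine ind (P := fun y => y = ∑ g, y.coeff g • MonoidAlgebra.single g (1 : F)) y (by simp) ?_ ?_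
  · intro a b ha hb
    conv_lhs => rw [ha, hb]
    rw [← sum_add_distrib]
    refine sum_congr rfl fun g _ => ?_
    rw [MonoidAlgebra.coeff_add, Finsupp.add_apply, add_smul]
  · intro c h
    rw [Finset.sum_eq_single h]
    · rw [MonoidAlgebra.coeff_smul_apply, MonoidAlgebra.coeff_single, Finsupp.single_eq_same,
        smul_eq_mul, mul_one]
    · intro b _ hb
      rw [MonoidAlgebra.coeff_smul_apply, MonoidAlgebra.coeff_single,
        Finsupp.single_eq_of_ne hb, smul_zero, zero_smul]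
    · intro h'; exact absurd (mem_univ h) h'

lemma sum_inv [Fintype G] (f θ : G → F) (z : G) (hf : ∀ g, f (z * g) = f g)
    (hθ : ∀ g, θ (z * g) = θ g + 1) : ∑ g, f g = 0 := by
  have h1 : ∑ g, f g * θ g = ∑ g, f (z * g) * θ (z * g) :=
    (Equiv.sum_comp (Equiv.mulLeft z) (fun g => f g * θ g)).symm
  simp_rw [hf, hθ, mul_add, sum_add_distrib, mul_one] at h1
  linear_combination -h1

lemma sum_inv' [Fintype G] (h2 : (2 : F) ≠ 0) (f θ : G → F) (z : G) (hf : ∀ g, f (z * g) = f g)
    (hθ : ∀ g, θ (z * g) = θ g + 1) : ∑ g, f g * θ g = 0 := by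
  have h0 := sum_inv f θ z hf hθ
  have h1 : ∑ g, f g * (θ g * θ g) = ∑ g, f (z * g) * (θ (z * g) * θ (z * g)) :=
    (Equiv.sum_comp (Equiv.mulLeft z) (fun g => f g * (θ g * θ g))).symm
  have h3 : ∀ g, f (z * g) * (θ (z * g) * θ (z * g)) = f g * (θ g * θ g) + 2 * (f g * θ g) + f g := by
    intro g
    rw [hf, hθ]
    ring
  simp_rw [h3, sum_add_distrib, ← mul_sum, h0] at h1
  have : 2 * ∑ g, f g * θ g = 0 := by linear_combination -h1
  exact (mul_eq_zero.mp this).resolve_left h2

lemma central_coeff (y : MonoidAlgebra F G) (hy : ∀ x, x * y = y * x) (x g : G) :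
    y.coeff (x * g * x⁻¹) = y.coeff g := by
  have := congrArg (fun w => w.coeff (x * g)) (hy (MonoidAlgebra.single x 1))
  simp only [MonoidAlgebra.coeff_single_mul_apply, MonoidAlgebra.coeff_mul_single_apply] at this
  rw [inv_mul_cancel_left, one_mul, mul_one] at this
  exact this.symm

/-- **Symbols of central elements are scalars** in odd characteristic. -/
theorem Om_central [Fintype G] (p : ℕ) [hp : Fact p.Prime] [CharP F p] (h2 : (2 : F) ≠ 0)
    {C : Subgroup G} {π : G →* Q} {κ : G → F} {β : Q → Q → F} (d : Dat C π κ β)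
    (hπ : Function.Surjective π) (hker : ∀ g, π g = 1 ↔ ∀ h, g * h = h * g)
    (hexp : ∀ c ∈ C, c ^ p = 1) (y : MonoidAlgebra F G) (hy : ∀ x, x * y = y * x) :
    ∃ s : F, Om π κ 1 y = MonoidAlgebra.single 1 s := by
  classical
  have hco : ∀ r, (Om π κ 1 y).coeff r = ∑ g, (if π g = r then y.coeff g else 0) * κ g := by
    intro r
    conv_lhs => rw [sum_coeff y]
    rw [map_sum, MonoidAlgebra.coeff_sum, Finsupp.finsetSum_apply]
    refine sum_congr rfl fun g _ => ?_
    rw [map_smul, Om_single, ek_one, MonoidAlgebra.smul_single, MonoidAlgebra.coeff_single,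
      Finsupp.single_apply, smul_eq_mul]
    split_ifs <;> ring
  refine ⟨(Om π κ 1 y).coeff 1, ?_⟩
  apply MonoidAlgebra.coeff_injective
  ext r
  rw [MonoidAlgebra.coeff_single, Finsupp.single_apply]
  split_ifs with hr
  · rw [hr]
  obtain ⟨g₀, rfl⟩ := hπ r
  have hg : ¬ ∀ h, g₀ * h = h * g₀ := fun h => hr ((hker g₀).mpr h).symm
  push Not at hg
  obtain ⟨x, hx⟩ := hg
  obtain ⟨z, hzdef⟩ : ∃ z, z = x * g₀ * x⁻¹ * g₀⁻¹ := ⟨_, rfl⟩
  have hzC : z ∈ C := by rw [hzdef]; exact d.com x g₀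
  have hz1 : z ≠ 1 := by
    intro h
    apply hx
    rw [hzdef] at h
    have h1 : x * g₀ * x⁻¹ = g₀ := mul_inv_eq_one.mp h
    exact (mul_inv_eq_iff_eq_mul.mp h1).symm
  obtain ⟨θ, hθ1, hθ2⟩ := exists_kap_one (F := F) p C d.cen hexp z hzC hz1
  have hθ : ∀ g, θ (z * g) = θ g + 1 := fun g => by rw [hθ1 z hzC, hθ2, add_comm]
  have hf : ∀ g, (if π (z * g) = π g₀ then y.coeff (z * g) else 0)
      = if π g = π g₀ then y.coeff g else 0 := by
    intro g
    rw [map_mul, d.pi z hzC, one_mul]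
    split_ifs with h
    · have hc : ∀ h, (g₀⁻¹ * g) * h = h * (g₀⁻¹ * g) := by
        apply (hker _).mp
        rw [map_mul, map_inv, h, inv_mul_cancel]
      have h1 : g = g₀ * (g₀⁻¹ * g) := by group
      generalize g₀⁻¹ * g = c at hc h1
      have h3 : z * g = x * g * x⁻¹ := by
        rw [h1, hzdef, mul_assoc x (g₀ * c), mul_assoc g₀ c, hc]
        group
      rw [h3, central_coeff y hy]
    · rfl
  rw [hco]
  set f : G → F := fun g => if π g = π g₀ then y.coeff g else 0 with hfdef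
  have hf' : ∀ g, f (z * g) = f g := hf
  have e : ∀ g, f g * κ g = f g * (κ g - κ z * θ g) + κ z * (f g * θ g) := fun g => by ring
  have h5 : ∑ g, f g * (κ g - κ z * θ g) = 0 := by
    refine sum_inv _ θ z (fun g => ?_) hθ
    rw [hf', d.kap z hzC, hθ]
    ring
  have h6 := sum_inv' h2 f θ z hf' hθ
  calc ∑ g, (if π g = π g₀ then y.coeff g else 0) * κ g = ∑ g, f g * κ g := rfl
    _ = ∑ g, (f g * (κ g - κ z * θ g) + κ z * (f g * θ g)) := sum_congr rfl fun g _ => e g
    _ = 0 := by rw [sum_add_distrib, h5, ← mul_sum, h6, mul_zero, add_zero]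

end Pool.Agent.V1172.MIP
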