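import Pool.Agent.V1172.MIP.Cnt

/-! The second group has class at most two and exponent `p` (conclusion). -/

set_option linter.unusedSectionVars false
set_option linter.unusedSimpArgs false

namespace Pool.Agent.V1172.MIP

open Finset MonoidAlgebra

variable {F : Type*} [Field F] {G : Type*} [Group G] {Q : Type*} [CommGroup Q]
variable {H : Type*} [Group H]

/-- hypotheses before anything is known on `H`. -/
structure Sit0 (p : ℕ) (C : Subgroup G) (P : G →* Q) (e : H →* MonoidAlgebra F G) : Prop where
  cen : ∀ c ∈ C, ∀ g, c * g = g * c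
  gen : C = Subgroup.closure {x | ∃ g h : G, x = g * h * g⁻¹ * h⁻¹}
  exp : ∀ g : G, g ^ p = 1
  surj : Function.Surjective P
  ker : ∀ g, P g = 1 ↔ g ∈ C
  span : Submodule.span F (Set.range e) = ⊤
  augm : ∀ h, aug (e h) = 1

variable {C : Subgroup G} {P : G →* Q} {e : H →* MonoidAlgebra F G} {p : ℕ}

lemma Sit0.com (S : Sit0 p C P e) (g h : G) : g * h * g⁻¹ * h⁻¹ ∈ C := by
  rw [S.gen]
  exact Subgroup.subset_closure ⟨g, h, rfl⟩

lemma Sit0.dat (S : Sit0 p C P e) : Dat C P (fun _ => (0 : F)) (fun _ _ => 0) where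
  cen := S.cen
  com := S.com
  pi := fun c hc => (S.ker c).mpr hc
  kap := fun _ _ _ => by simp
  beta := fun _ _ => rfl
  alt := ⟨fun _ => rfl, fun _ _ _ => by simp, fun _ _ _ => by simp⟩

/-- the subgroup of elements with trivial image -/
def H1 (P : G →* Q) (e : H →* MonoidAlgebra F G) : Subgroup H where
  carrier := {h | pm F P (e h) = 1}
  mul_mem' := fun {a b} ha hb => by
    simp only [Set.mem_ofPred_eq] at *
    rw [map_mul, map_mul, ha, hb, mul_one]
  one_mem' := by
    simp only [Set.mem_ofPred_eq]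
    rw [map_one, map_one]
  inv_mem' := fun {a} ha => by
    simp only [Set.mem_ofPred_eq] at *
    have : pm F P (e a⁻¹) * pm F P (e a) = 1 := by
      rw [← map_mul, ← map_mul, inv_mul_cancel, map_one, map_one]
    rwa [ha, mul_one] at this

lemma mem_H1 {h : H} : h ∈ H1 P e ↔ pm F P (e h) = 1 := Iff.rfl

lemma Sit0.card_H1 [Finite G] [Finite H] (S : Sit0 p C P e) (hc : Nat.card H = Nat.card G) :
    Nat.card (H1 P e) ≤ Nat.card C := by
  classical
  have : Finite Q := Finite.of_surjective P S.surj
  have : Fintype Q := Fintype.ofFinite Q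
  have : Fintype (H ⧸ H1 P e) := Fintype.ofFinite _
  -- the images span
  let b : H ⧸ H1 P e → MonoidAlgebra F Q := fun q => pm F P (e q.out)
  have hb : ∀ h, pm F P (e h) ∈ Set.range b := by
    intro h
    refine ⟨QuotientGroup.mk h, ?_⟩
    show pm F P (e (QuotientGroup.mk h : H ⧸ H1 P e).out) = pm F P (e h)
    have h1 : (QuotientGroup.mk ((QuotientGroup.mk h : H ⧸ H1 P e).out) : H ⧸ H1 P e)
        = QuotientGroup.mk h := QuotientGroup.out_eq' _
    have h2 := QuotientGroup.eq.mp h1
    rw [mem_H1] at h2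
    have h3 : e h = e (QuotientGroup.mk h : H ⧸ H1 P e).out
        * e ((QuotientGroup.mk h : H ⧸ H1 P e).out⁻¹ * h) := by
      rw [← map_mul, mul_inv_cancel_left]
    rw [h3, map_mul, h2, mul_one]
  have hspan : Submodule.span F (Set.range b) = ⊤ := by
    rw [eq_top_iff]
    intro y _
    have hy : ∀ x : MonoidAlgebra F G, pm F P x ∈ Submodule.span F (Set.range b) := by
      intro x
      have hx : x ∈ Submodule.span F (Set.range e) := by rw [S.span]; trivial
      induction hx using Submodule.span_induction with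
      | mem y hy =>
        obtain ⟨l, rfl⟩ := hy
        exact Submodule.subset_span (hb l)
      | zero => simp
      | add a b _ _ ha hb => rw [map_add]; exact Submodule.add_mem _ ha hb
      | smul a b _ hb => rw [map_smul]; exact Submodule.smul_mem _ _ hb
    refine ind (P := fun y => y ∈ Submodule.span F (Set.range b)) y (Submodule.zero_mem _) ?_ ?_
    · intro a b ha hb
      exact Submodule.add_mem _ ha hb
    · intro c q
      obtain ⟨g, rfl⟩ := S.surj q
      have := hy (MonoidAlgebra.single g 1)
      rw [pm_single] at this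
      exact Submodule.smul_mem _ _ this
  have h1 : Fintype.card Q ≤ Fintype.card (H ⧸ H1 P e) := by
    have h2 := finrank_range_le_card (R := F) b
    rw [Set.finrank, hspan, finrank_top, Module.finrank_eq_card_basis (MonoidAlgebra.basis Q F)] at h2
    exact h2
  have h2 : Nat.card H = Nat.card (H ⧸ H1 P e) * Nat.card (H1 P e) :=
    Subgroup.card_eq_card_quotient_mul_card_subgroup _
  have h3 : Nat.card G = Nat.card (G ⧸ P.ker) * Nat.card P.ker :=
    Subgroup.card_eq_card_quotient_mul_card_subgroup _
  have h4 : Nat.card (G ⧸ P.ker) = Nat.card Q :=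
    Nat.card_congr (QuotientGroup.quotientKerEquivOfSurjective P S.surj).toEquiv
  have h5 : P.ker = C := by
    ext g
    rw [MonoidHom.mem_ker, S.ker]
  rw [h4, h5] at h3
  rw [← Nat.card_eq_fintype_card, ← Nat.card_eq_fintype_card] at h1
  have h6 : 0 < Nat.card Q := Nat.card_pos
  have h7 : Nat.card Q * Nat.card (H1 P e) ≤ Nat.card Q * Nat.card C := by
    calc Nat.card Q * Nat.card (H1 P e) ≤ Nat.card (H ⧸ H1 P e) * Nat.card (H1 P e) :=
          Nat.mul_le_mul_right _ h1
      _ = _ := by rw [← h2, hc, h3]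
  exact Nat.le_of_mul_le_mul_left h7 h6

lemma Sit0.mem_IC (S : Sit0 p C P e) {h : H} (hh : h ∈ H1 P e) : e h - 1 ∈ IC F C 1 := by
  apply ker_pm S.surj S.ker
  rw [map_sub, map_one, mem_H1.mp hh, sub_self]

lemma Sit0.comm_mem (_S : Sit0 p C P e) (h k : H) : h * k * h⁻¹ * k⁻¹ ∈ H1 P e := by
  rw [mem_H1]
  have h1 := e_comm' (e := e) h k
  have h2 : pm F P (e (h * k * h⁻¹ * k⁻¹) - 1) = 0 := by
    rw [h1, map_mul, map_sub, map_mul, map_mul, mul_comm (pm F P (e k)), sub_self, zero_mul]
  rwa [map_sub, map_one, sub_eq_zero] at h2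

/-- the functionals separate the points of `H1`. -/
theorem Sit0.sep [Finite G] [Finite H] [hp : Fact p.Prime] [CharP F p] (S : Sit0 p C P e)
    (hc : Nat.card H = Nat.card G) (h : H) (hh : h ∈ H1 P e)
    (h0 : ∀ κ : G → F, (∀ c ∈ C, ∀ g, κ (c * g) = κ c + κ g) → Kf κ (e h - 1) = 0) : h = 1 := by
  classical
  obtain ⟨n, κ, v, hn, hv, hκ, hκv⟩ := exists_coord (F := F) p C S.cen (fun c _ => S.exp c)
  let T : MonoidAlgebra F G →ₗ[F] (Fin n → F) := LinearMap.pi (fun i => Kf (κ i))
  have hT : ∀ x i, T x i = Kf (κ i) x := fun x i => rfl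
  let t : H1 P e → (Fin n → F) := fun h => T (e h - 1)
  have htmul : ∀ a b, t (a * b) = t a + t b := by
    intro a b
    funext i
    have h1 : e (a * b : H) - 1 = (e a - 1) * (e b - 1) + (e a - 1) + (e b - 1) := by
      rw [map_mul]
      noncomm_ring
    show T (e (a * b : H) - 1) i = T (e a - 1) i + T (e b - 1) i
    have h2 : aug (e (b : H) - 1) = 0 := by rw [map_sub, S.augm, map_one, sub_self]
    rw [hT, hT, hT, h1, map_add, map_add, Kf_right (hκ i) _ _ (S.mem_IC a.2), h2, mul_zero,
      zero_add]
  have hone : t 1 = 0 := by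
    have := htmul 1 1
    rw [mul_one] at this
    simpa using this
  let W : Submodule F (Fin n → F) := Submodule.span F (Set.range t)
  -- all commutators lie in `W`
  have hW1 : ∀ x y : MonoidAlgebra F G, T (x * y - y * x) ∈ W := by
    intro x y
    have hx : x ∈ Submodule.span F (Set.range e) := by rw [S.span]; trivial
    have hy : y ∈ Submodule.span F (Set.range e) := by rw [S.span]; trivial
    induction hx using Submodule.span_induction with
    | mem x hx =>
      obtain ⟨k, rfl⟩ := hx
      induction hy using Submodule.span_induction with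
      | mem y hy =>
        obtain ⟨l, rfl⟩ := hy
        have : T (e k * e l - e l * e k) = t ⟨k * l * k⁻¹ * l⁻¹, S.comm_mem k l⟩ := by
          funext i
          show T _ i = T (e (k * l * k⁻¹ * l⁻¹) - 1) i
          have h2 : aug (e l * e k) = 1 := by rw [map_mul, S.augm, S.augm, mul_one]
          rw [hT, hT, e_comm, Kf_right (hκ i) _ _ (S.mem_IC (S.comm_mem k l)), h2, mul_one]
        rw [this]
        exact Submodule.subset_span ⟨_, rfl⟩
      | zero => simp
      | add a b _ _ ha hb =>
        have : e k * (a + b) - (a + b) * e k = (e k * a - a * e k) + (e k * b - b * e k) := by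
          noncomm_ring
        rw [this, map_add]
        exact Submodule.add_mem _ ha hb
      | smul a b _ hb =>
        rw [mul_smul_comm, smul_mul_assoc, ← smul_sub, map_smul]
        exact Submodule.smul_mem _ _ hb
    | zero => simp
    | add a b _ _ ha hb =>
      have : (a + b) * y - y * (a + b) = (a * y - y * a) + (b * y - y * b) := by
        noncomm_ring
      rw [this, map_add]
      exact Submodule.add_mem _ ha hb
    | smul a b _ hb =>
      rw [mul_smul_comm, smul_mul_assoc, ← smul_sub, map_smul]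
      exact Submodule.smul_mem _ _ hb
  have hκ1 : ∀ i, κ i 1 = 0 := fun i => kap_one (hκ i)
  have hW2 : ∀ c ∈ C, (fun i => κ i c) ∈ W := by
    intro c hcC
    rw [S.gen] at hcC
    have hW3 : c ∈ C ∧ (fun i => κ i c) ∈ W := by
      induction hcC using Subgroup.closure_induction with
      | mem x hx =>
        obtain ⟨g, l, rfl⟩ := hx
        refine ⟨S.com g l, ?_⟩
        have := hW1 (MonoidAlgebra.single g 1) (MonoidAlgebra.single l 1)
        have h2 : T (MonoidAlgebra.single g (1 : F) * MonoidAlgebra.single l 1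
            - MonoidAlgebra.single l 1 * MonoidAlgebra.single g 1)
            = (fun i => κ i (g * l * g⁻¹ * l⁻¹)) := by
          funext i
          rw [hT, comm_single, Kf_mul (hκ i) (S.com g l), aug_single, mul_one]
        rwa [h2] at this
      | one =>
        refine ⟨C.one_mem, ?_⟩
        have : (fun i => κ i 1) = (0 : Fin n → F) := funext hκ1
        rw [this]
        exact Submodule.zero_mem _
      | mul x y _ _ hx hy =>
        refine ⟨C.mul_mem hx.1 hy.1, ?_⟩
        have : (fun i => κ i (x * y)) = (fun i => κ i x) + (fun i => κ i y) := by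
          funext i
          exact hκ i x hx.1 y
        rw [this]
        exact Submodule.add_mem _ hx.2 hy.2
      | inv x _ hx =>
        refine ⟨C.inv_mem hx.1, ?_⟩
        have : (fun i => κ i x⁻¹) = -(fun i => κ i x) := by
          funext i
          have := hκ i x⁻¹ (C.inv_mem hx.1) x
          rw [inv_mul_cancel, hκ1] at this
          show κ i x⁻¹ = - κ i x
          linear_combination -this
        rw [this]
        exact Submodule.neg_mem _ hx.2
    exact hW3.2
  have hWtop : W = ⊤ := by
    rw [eq_top_iff, ← (Pi.basisFun F (Fin n)).span_eq, Submodule.span_le]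
    rintro _ ⟨j, rfl⟩
    have := hW2 (v j) (hv j)
    have h2 : (fun i => κ i (v j)) = (Pi.basisFun F (Fin n) j) := by
      funext i
      rw [hκv, Pi.basisFun_apply, Pi.single_apply]
      simp only [eq_comm]
    rwa [h2] at this
  -- cardinalities
  have hcard : p ^ n ≤ Nat.card (Set.range t) := by
    have := card_span (F := F) p (Set.range t) (Set.finite_range t) ?_ ?_ hWtop
    · rwa [Module.finrank_fin_fun] at this
    · rintro _ ⟨a, rfl⟩ _ ⟨b, rfl⟩
      exact ⟨a * b, htmul a b⟩
    · exact ⟨1, hone⟩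
  have hle : Nat.card (H1 P e) ≤ Nat.card (Set.range t) := by
    refine le_trans (S.card_H1 hc) ?_
    rw [hn]
    exact hcard
  have hbij := Function.Surjective.bijective_of_nat_card_le
    (f := Set.rangeFactorization t) Set.rangeFactorization_surjective hle
  have ht0 : t ⟨h, hh⟩ = t 1 := by
    rw [hone]
    funext i
    exact h0 (κ i) (hκ i)
  have := hbij.1 (Subtype.ext ht0 : Set.rangeFactorization t ⟨h, hh⟩ = Set.rangeFactorization t 1)
  exact congrArg Subtype.val this

lemma Sit0.sep2 [Finite G] [Finite H] [hp : Fact p.Prime] [CharP F p] (S : Sit0 p C P e)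
    (hc : Nat.card H = Nat.card G) (h : H) (hh : e h - 1 ∈ IC F C 2) : h = 1 := by
  have h1 : e h - 1 ∈ IC F C 1 := IC_le S.dat 1 hh
  refine S.sep hc h ?_ (fun κ hκ => Kf_IC2 hκ _ hh)
  rw [mem_H1]
  have := pm_IC1 (P := P) (fun c hc => (S.ker c).mpr hc) _ h1
  rwa [map_sub, map_one, sub_eq_zero] at this

theorem Sit0.comH [Finite G] [Finite H] [hp : Fact p.Prime] [CharP F p] (S : Sit0 p C P e)
    (hc : Nat.card H = Nat.card G) (h k l : H) :
    (h * k * h⁻¹ * k⁻¹) * l = l * (h * k * h⁻¹ * k⁻¹) := by
  obtain ⟨c, hcdef⟩ : ∃ c, c = h * k * h⁻¹ * k⁻¹ := ⟨_, rfl⟩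
  have hcm : c ∈ H1 P e := by rw [hcdef]; exact S.comm_mem h k
  rw [← hcdef]
  have h1 : c * l * c⁻¹ * l⁻¹ = 1 := by
    apply S.sep2 hc
    rw [e_comm']
    apply IC_mul_right
    have h2 : e c * e l - e l * e c = -(e l * (e c - 1) - (e c - 1) * e l) := by noncomm_ring
    rw [h2]
    exact Submodule.neg_mem _ (IC_comm S.dat 1 (e l) _ (S.mem_IC hcm))
  have h3 : c * l * c⁻¹ = l := by
    rwa [mul_inv_eq_one] at h1
  rwa [mul_inv_eq_iff_eq_mul] at h3

theorem Sit0.expH [Finite G] [Finite H] [hp : Fact p.Prime] [CharP F p] (hp2 : p ≠ 2)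
    (S : Sit0 p C P e) (hc : Nat.card H = Nat.card G) (h : H) : h ^ p = 1 := by
  apply S.sep2 hc
  have h1 : e (h ^ p) - 1 = Nu p (e h) := by
    unfold Nu
    rw [map_pow, S.augm, one_pow, one_smul]
  rw [h1]
  have h2 : 2 ≤ p - 1 := by
    have := hp.out.two_le
    omega
  refine IC_anti S.dat h2 (Nu_mem p S.dat (fun g => ?_) (e h))
  rw [S.exp, ← MonoidAlgebra.one_def, sub_self]
  exact Submodule.zero_mem _

end Pool.Agent.V1172.MIP
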