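import Pool.Agent.V1172.MIP.Hom

/-! The second group has class at most two and exponent `p`. -/

set_option linter.unusedSectionVars false
set_option linter.unusedSimpArgs false

namespace Pool.Agent.V1172.MIP

open Finset MonoidAlgebra

variable {F : Type*} [Field F] {G : Type*} [Group G] {Q : Type*} [CommGroup Q]

/-- the linear extension of `κ` -/
noncomputable def Kf (κ : G → F) : MonoidAlgebra F G →ₗ[F] F :=
  (MonoidAlgebra.basis G F).constr F κ

lemma Kf_single (κ : G → F) (g : G) : Kf κ (MonoidAlgebra.single g 1) = κ g := by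
  have := (MonoidAlgebra.basis G F).constr_basis F κ g
  rw [MonoidAlgebra.basis_apply] at this
  exact this

section
variable {C : Subgroup G} {κ : G → F}

lemma Kf_mul (hκ : ∀ c ∈ C, ∀ g, κ (c * g) = κ c + κ g) {c : G} (hc : c ∈ C)
    (x : MonoidAlgebra F G) : Kf κ ((MonoidAlgebra.single c 1 - 1) * x) = κ c * aug x := by
  refine ind (P := fun x => Kf κ ((MonoidAlgebra.single c 1 - 1) * x) = κ c * aug x) x (by simp) ?_ ?_
  · intro a b ha hb
    rw [mul_add, map_add, ha, hb, map_add, mul_add]
  · intro a g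
    rw [mul_smul_comm, map_smul, sub_mul, one_mul, MonoidAlgebra.single_mul_single, mul_one,
      map_sub, Kf_single, Kf_single, hκ c hc, map_smul, aug_single]
    simp only [smul_eq_mul]
    ring

lemma aug_IC1 : ∀ x ∈ IC F C 1, aug x = 0 := by
  intro x hx
  induction hx using Submodule.span_induction with
  | mem y hy =>
    obtain ⟨c, hc, z, hz, rfl⟩ := hy
    rw [map_mul, map_sub, aug_single, map_one, sub_self, zero_mul]
  | zero => simp
  | add a b _ _ ha hb => rw [map_add, ha, hb, add_zero]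
  | smul a b _ hb => rw [map_smul, hb, smul_zero]

lemma Kf_IC2 (hκ : ∀ c ∈ C, ∀ g, κ (c * g) = κ c + κ g) : ∀ x ∈ IC F C 2, Kf κ x = 0 := by
  intro x hx
  induction hx using Submodule.span_induction with
  | mem y hy =>
    obtain ⟨c, hc, z, hz, rfl⟩ := hy
    rw [Kf_mul hκ hc, aug_IC1 z hz, mul_zero]
  | zero => simp
  | add a b _ _ ha hb => rw [map_add, ha, hb, add_zero]
  | smul a b _ hb => rw [map_smul, hb, smul_zero]

lemma Kf_right (hκ : ∀ c ∈ C, ∀ g, κ (c * g) = κ c + κ g) (a : MonoidAlgebra F G) :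
    ∀ x ∈ IC F C 1, Kf κ (x * a) = Kf κ x * aug a := by
  intro x hx
  induction hx using Submodule.span_induction with
  | mem y hy =>
    obtain ⟨c, hc, z, hz, rfl⟩ := hy
    rw [mul_assoc, Kf_mul hκ hc, Kf_mul hκ hc, map_mul, mul_assoc]
  | zero => simp
  | add x y _ _ ha hb => rw [add_mul, map_add, ha, hb, map_add, add_mul]
  | smul b x _ hb => rw [smul_mul_assoc, map_smul, hb, map_smul, smul_eq_mul, smul_eq_mul, mul_assoc]

lemma IC_le {π : G →* Q} {κ' : G → F} {β : Q → Q → F} (d : Dat C π κ' β) (k : ℕ) :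
    IC F C (k + 1) ≤ IC F C k := by
  intro x hx
  induction hx using Submodule.span_induction with
  | mem y hy =>
    obtain ⟨c, hc, z, hz, rfl⟩ := hy
    exact IC_mul_left d k _ z hz
  | zero => simp
  | add x y _ _ ha hb => exact Submodule.add_mem _ ha hb
  | smul b x _ hb => exact Submodule.smul_mem _ _ hb

lemma IC_anti {π : G →* Q} {κ' : G → F} {β : Q → Q → F} (d : Dat C π κ' β) {k l : ℕ} (h : k ≤ l) :
    IC F C l ≤ IC F C k := by
  induction l, h using Nat.le_induction with
  | base => exact le_rfl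
  | succ l _ ih => exact (IC_le d l).trans ih

lemma pm_IC1 {P : G →* Q} (hP : ∀ c ∈ C, P c = 1) : ∀ x ∈ IC F C 1, pm F P x = 0 := by
  intro x hx
  induction hx using Submodule.span_induction with
  | mem y hy =>
    obtain ⟨c, hc, z, hz, rfl⟩ := hy
    rw [map_mul, map_sub, pm_single, hP c hc, map_one, ← MonoidAlgebra.one_def, sub_self, zero_mul]
  | zero => simp
  | add x y _ _ ha hb => rw [map_add, ha, hb, add_zero]
  | smul b x _ hb => rw [map_smul, hb, smul_zero]

lemma ker_pm {P : G →* Q} (hs : Function.Surjective P)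
    (hk : ∀ g, P g = 1 ↔ g ∈ C) (x : MonoidAlgebra F G) (hx : pm F P x = 0) : x ∈ IC F C 1 := by
  classical
  obtain ⟨s, hs⟩ : ∃ s : Q → G, ∀ q, P (s q) = q := ⟨Function.surjInv hs, Function.surjInv_eq hs⟩
  let σ : MonoidAlgebra F Q →ₗ[F] MonoidAlgebra F G :=
    (MonoidAlgebra.basis Q F).constr F (fun q => MonoidAlgebra.single (s q) 1)
  have hσ : ∀ q, σ (MonoidAlgebra.single q 1) = MonoidAlgebra.single (s q) 1 := by
    intro q
    have := (MonoidAlgebra.basis Q F).constr_basis F (fun q => MonoidAlgebra.single (s q) (1 : F)) q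
    rw [MonoidAlgebra.basis_apply] at this
    exact this
  have key : ∀ x : MonoidAlgebra F G, x - σ (pm F P x) ∈ IC F C 1 := by
    intro x
    refine ind (P := fun x => x - σ (pm F P x) ∈ IC F C 1) x (by simp) ?_ ?_
    · intro a b ha hb
      have : a + b - σ (pm F P (a + b)) = (a - σ (pm F P a)) + (b - σ (pm F P b)) := by
        rw [map_add, map_add]; abel
      rw [this]
      exact Submodule.add_mem _ ha hb
    · intro a g
      rw [map_smul, map_smul, ← smul_sub, pm_single, hσ]
      refine Submodule.smul_mem _ _ ?_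
      have hc : g * (s (P g))⁻¹ ∈ C := by
        rw [← hk, map_mul, map_inv, hs, mul_inv_cancel]
      have : (MonoidAlgebra.single g 1 - MonoidAlgebra.single (s (P g)) 1 : MonoidAlgebra F G)
          = (MonoidAlgebra.single (g * (s (P g))⁻¹) 1 - 1) * MonoidAlgebra.single (s (P g)) 1 := by
        rw [sub_mul, one_mul, MonoidAlgebra.single_mul_single, mul_one, inv_mul_cancel_right]
      rw [this]
      exact mem_IC_succ hc trivial
  have := key x
  rwa [hx, map_zero, sub_zero] at this

end

/-- a finite additively closed spanning set is large -/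
lemma card_span (p : ℕ) [hp : Fact p.Prime] [CharP F p] {V : Type*} [AddCommGroup V] [Module F V]
    (Y : Set V) (hf : Y.Finite) (hadd : ∀ a ∈ Y, ∀ b ∈ Y, a + b ∈ Y) (h0 : 0 ∈ Y)
    (hspan : Submodule.span F Y = ⊤) : p ^ (Module.finrank F V) ≤ Nat.card Y := by
  classical
  obtain ⟨b, hb1, hb2, hb3⟩ := exists_linearIndependent F Y
  have hbf : b.Finite := hf.subset hb1
  have : Fintype b := hbf.fintype
  have : Fintype Y := hf.fintype
  let B : Module.Basis b F V := Module.Basis.mk hb3 (by
    rw [Subtype.range_coe, hb2, hspan])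
  have hfr : Module.finrank F V = Fintype.card b := Module.finrank_eq_card_basis B
  have hsm : ∀ n : ℕ, ∀ y ∈ Y, n • y ∈ Y := by
    intro n y hy
    induction n with
    | zero => rw [zero_smul]; exact h0
    | succ n ih => rw [succ_nsmul]; exact hadd _ ih _ hy
  have hsum : ∀ (s : Finset b) (a : b → Fin p), ∑ i ∈ s, (a i : ℕ) • (i : V) ∈ Y := by
    intro s a
    induction s using Finset.induction_on with
    | empty => simpa using h0
    | insert i s his ih =>
      rw [Finset.sum_insert his]
      exact hadd _ (hsm _ _ (hb1 i.2)) _ ih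
  let f : (b → Fin p) → Y := fun a => ⟨∑ i, (a i : ℕ) • (i : V), hsum _ a⟩
  have hf : Function.Injective f := by
    intro a a' haa
    have h1 : ∑ i, (a i : ℕ) • (i : V) = ∑ i, (a' i : ℕ) • (i : V) := congrArg Subtype.val haa
    have h2 : ∑ i : b, (((a i : ℕ) : F) - ((a' i : ℕ) : F)) • (i : V) = 0 := by
      simp_rw [sub_smul, Nat.cast_smul_eq_nsmul]
      rw [Finset.sum_sub_distrib, h1, sub_self]
    have h3 := Fintype.linearIndependent_iff.mp hb3 _ h2
    funext i
    have h4 := sub_eq_zero.mp (h3 i)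
    apply Fin.ext
    exact CharP.natCast_injOn_Iio F p (a i).2 (a' i).2 h4
  have h5 := Fintype.card_le_of_injective f hf
  rw [Fintype.card_fun, Fintype.card_fin] at h5
  rw [hfr, Nat.card_eq_fintype_card]
  exact h5

lemma exists_coord' (p : ℕ) [hp : Fact p.Prime] {V : Type*} [AddCommGroup V] [Finite V]
    (hexp : ∀ a : V, p • a = 0) :
    ∃ (n : ℕ) (φ : Fin n → V → ZMod p) (v : Fin n → V), Nat.card V = p ^ n ∧
      (∀ i a b, φ i (a + b) = φ i a + φ i b) ∧ (∀ i j, φ i (v j) = if j = i then 1 else 0) := by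
  let _ : Module (ZMod p) V := AddCommGroup.zmodModule (n := p) hexp
  have : Module.Finite (ZMod p) V := Module.Finite.of_finite
  refine ⟨Module.finrank (ZMod p) V, fun i v => (Module.finBasis (ZMod p) V).repr v i,
    fun i => Module.finBasis (ZMod p) V i, ?_, ?_, ?_⟩
  · rw [Module.natCard_eq_pow_finrank (K := ZMod p), Nat.card_zmod]
  · intro i a b
    simp
  · intro i j
    simp only [Module.Basis.repr_self, Finsupp.single_apply]

lemma exists_coord (p : ℕ) [hp : Fact p.Prime] [CharP F p] (C : Subgroup G) [Finite C]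
    (hcen : ∀ c ∈ C, ∀ g, c * g = g * c) (hexp : ∀ c ∈ C, c ^ p = 1) :
    ∃ (n : ℕ) (κ : Fin n → G → F) (v : Fin n → G), Nat.card C = p ^ n ∧ (∀ i, v i ∈ C) ∧
      (∀ i, ∀ c ∈ C, ∀ g, κ i (c * g) = κ i c + κ i g) ∧
      (∀ i j, κ i (v j) = if j = i then 1 else 0) := by
  let _ : CommGroup C := { (inferInstance : Group C) with
    mul_comm := fun a b => Subtype.ext (hcen a a.2 b) }
  obtain ⟨n, φ, v, h1, h2, h3⟩ := exists_coord' p (V := Additive C) (fun x => by
    show Additive.ofMul (Additive.toMul x ^ p) = 0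
    have : Additive.toMul x ^ p = 1 := Subtype.ext (hexp _ (Additive.toMul x).2)
    rw [this]
    rfl)
  have h4 : ∀ i, ∃ κ : G → F, (∀ c ∈ C, ∀ g, κ (c * g) = κ c + κ g) ∧
      ∀ c : C, κ c = (ZMod.castHom (dvd_refl p) F) (φ i (Additive.ofMul c)) := by
    intro i
    refine exists_kap C hcen (fun c => (ZMod.castHom (dvd_refl p) F) (φ i (Additive.ofMul c))) ?_
    intro a b
    rw [← map_add, ← h2]
    rfl
  choose κ hκ1 hκ2 using h4
  refine ⟨n, κ, fun i => ((Additive.toMul (v i) : C) : G), h1, fun i => (Additive.toMul (v i)).2,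
    hκ1, ?_⟩
  intro i j
  have := hκ2 i (Additive.toMul (v j))
  rw [this]
  show (ZMod.castHom (dvd_refl p) F) (φ i (v j)) = _
  rw [h3]
  split_ifs <;> simp

end Pool.Agent.V1172.MIP
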