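import Pool.Agent.V1172.MIP.Sym

/-! The derivations `(ad u)^p - ad N(u)` and the symbols of central elements. -/

set_option linter.unusedSectionVars false
set_option linter.unusedSimpArgs false

namespace Pool.Agent.V1172.MIP

open Finset MonoidAlgebra

variable {F : Type*} [Field F] {G : Type*} [Group G] {Q : Type*} [CommGroup Q]

lemma charMA (p : ℕ) [CharP F p] : CharP (MonoidAlgebra F G) p :=
  charP_of_injective_algebraMap (algebraMap F (MonoidAlgebra F G)).injective p

lemma charEnd (p : ℕ) [CharP F p] : CharP (Module.End F (MonoidAlgebra F Q)) p :=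
  charP_of_injective_algebraMap (algebraMap F (Module.End F (MonoidAlgebra F Q))).injective p

/-- `u ^ p - ε(u) ^ p` -/
noncomputable def Nu (p : ℕ) (u : MonoidAlgebra F G) : MonoidAlgebra F G :=
  u ^ p - (aug u ^ p) • (1 : MonoidAlgebra F G)

lemma Nu_add (p : ℕ) [hp : Fact p.Prime] [CharP F p] (u v : MonoidAlgebra F G) :
    Nu p (u + v) = Nu p u + Nu p v
      + ∑ i ∈ range (p - 1), ((i + 1 : ℕ) : F)⁻¹ • cf cm u v (p - 1) i := by
  have := charMA (F := F) (G := G) p
  unfold Nu
  rw [jacobson (F := F) p u v, map_add, add_pow_char, add_smul]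
  abel

lemma Nu_smul (p : ℕ) (c : F) (g : G) :
    Nu p (c • MonoidAlgebra.single g (1 : F)) = c ^ p • (MonoidAlgebra.single (g ^ p) 1 - 1) := by
  unfold Nu
  rw [map_smul, aug_single, smul_pow, MonoidAlgebra.single_pow, one_pow, smul_sub, smul_eq_mul,
    mul_one]

lemma Nu_zero (p : ℕ) [hp : Fact p.Prime] : Nu p (0 : MonoidAlgebra F G) = 0 := by
  unfold Nu
  rw [map_zero, zero_pow hp.out.ne_zero, zero_pow hp.out.ne_zero, zero_smul, sub_zero]

/-- the linear form `∑ u_g β(g, r)` -/
noncomputable def lam (π : G →* Q) (β : Q → Q → F) (r : Q) : MonoidAlgebra F G →ₗ[F] F :=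
  (MonoidAlgebra.basis G F).constr F (fun g => β (π g) r)

lemma lam_single (π : G →* Q) (β : Q → Q → F) (r : Q) (g : G) :
    lam π β r (MonoidAlgebra.single g 1) = β (π g) r := by
  have := (MonoidAlgebra.basis G F).constr_basis F (fun g => β (π g) r) g
  rw [MonoidAlgebra.basis_apply] at this
  exact this

section
variable {C : Subgroup G} {π : G →* Q} {κ : G → F} {β : Q → Q → F}

lemma Nu_mem (p : ℕ) [hp : Fact p.Prime] [CharP F p] (d : Dat C π κ β)
    (hN : ∀ g : G, (MonoidAlgebra.single (g ^ p) 1 - 1 : MonoidAlgebra F G) ∈ IC F C (p - 1))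
    (u : MonoidAlgebra F G) : Nu p u ∈ IC F C (p - 1) := by
  refine ind (P := fun u => Nu p u ∈ IC F C (p - 1)) u ?_ ?_ ?_
  · rw [Nu_zero]; exact Submodule.zero_mem _
  · intro a b ha hb
    rw [Nu_add]
    refine Submodule.add_mem _ (Submodule.add_mem _ ha hb) (Submodule.sum_mem _ fun i _ => ?_)
    exact Submodule.smul_mem _ _ (cf_mem d a b (p - 1) i)
  · intro c g
    rw [Nu_smul]
    exact Submodule.smul_mem _ _ (hN g)

/-- **The eigenvalues of `(ad u)^p - ad N(u)`.** -/
theorem eig (p : ℕ) [hp : Fact p.Prime] [CharP F p] (d : Dat C π κ β)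
    (hN : ∀ g : G, ad β (Om π κ (p - 1) (MonoidAlgebra.single (g ^ p) 1 - 1)) = 0)
    (hQ : ∀ q : Q, q ^ p = 1) (u : MonoidAlgebra F G) (r : Q) :
    (ad β (pm F π u) ^ p) (MonoidAlgebra.single r 1)
      - ad β (Om π κ (p - 1) (Nu p u)) (MonoidAlgebra.single r 1)
      = (lam π β r u) ^ p • MonoidAlgebra.single r 1 := by
  have := charEnd (F := F) (Q := Q) p
  have hp1 : p - 1 < p := by have := hp.out.pos; omega
  refine ind (P := fun u => (ad β (pm F π u) ^ p) (MonoidAlgebra.single r 1)
      - ad β (Om π κ (p - 1) (Nu p u)) (MonoidAlgebra.single r 1)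
      = (lam π β r u) ^ p • MonoidAlgebra.single r 1) u ?_ ?_ ?_
  · rw [Nu_zero]
    simp only [map_zero, zero_pow hp.out.ne_zero, zero_smul]
    simp
  · intro a b ha hb
    have h1 : ad β (pm F π (a + b)) ^ p = ad β (pm F π a) ^ p + ad β (pm F π b) ^ p
        + ∑ i ∈ range (p - 1), ((i + 1 : ℕ) : F)⁻¹ •
          cf cm (ad β (pm F π a)) (ad β (pm F π b)) (p - 1) i := by
      rw [map_add, map_add, jacobson (F := F) p]
    have h2 : ad β (Om π κ (p - 1) (Nu p (a + b)))
        = ad β (Om π κ (p - 1) (Nu p a)) + ad β (Om π κ (p - 1) (Nu p b))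
        + ∑ i ∈ range (p - 1), ((i + 1 : ℕ) : F)⁻¹ •
          cf cm (ad β (pm F π a)) (ad β (pm F π b)) (p - 1) i := by
      rw [Nu_add, map_add, map_add, map_sum, map_add, map_add, map_sum]
      congr 1
      refine sum_congr rfl fun i _ => ?_
      rw [map_smul, map_smul, Om_cf p d a b (p - 1) hp1, ad_cf d.alt]
    rw [h1, h2, map_add, add_pow_char, add_smul, ← ha, ← hb]
    simp only [LinearMap.add_apply]
    abel
  · intro c g
    have h1 : ad β (Om π κ (p - 1) (Nu p (c • MonoidAlgebra.single g (1 : F)))) = 0 := by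
      rw [Nu_smul, map_smul, map_smul, hN, smul_zero]
    have h2 : pm F π (c • MonoidAlgebra.single g (1 : F)) = c • MonoidAlgebra.single (π g) 1 := by
      rw [map_smul, pm_single]
    rw [h1, h2, LinearMap.zero_apply, sub_zero, ad_pow_single d.alt, hQ, one_mul, map_smul,
      lam_single, single_eq_smul]
    simp only [smul_eq_mul]

end

end Pool.Agent.V1172.MIP
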