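import Pool.Agent.V1172.MIP.Eig

/-! Existence of the functions `κ` and the forms `β`; symbols of central elements. -/

set_option linter.unusedSectionVars false
set_option linter.unusedSimpArgs false

namespace Pool.Agent.V1172.MIP

open Finset MonoidAlgebra

variable {F : Type*} [Field F] {G : Type*} [Group G] {Q : Type*} [CommGroup Q]

/-- every additive function on a central subgroup extends to a function `κ` with
`κ(c g) = κ(c) + κ(g)`. -/
lemma exists_kap (C : Subgroup G) (hcen : ∀ c ∈ C, ∀ g, c * g = g * c) (φ : C → F)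
    (hφ : ∀ a b, φ (a * b) = φ a + φ b) :
    ∃ κ : G → F, (∀ c ∈ C, ∀ g, κ (c * g) = κ c + κ g) ∧ ∀ c : C, κ c = φ c := by
  classical
  obtain ⟨rep, hrep, hrep2⟩ : ∃ rep : G → G, (∀ g, (rep g)⁻¹ * g ∈ C) ∧
      ∀ c ∈ C, ∀ g, rep (c * g) = rep g := by
    refine ⟨fun g => (QuotientGroup.mk g : G ⧸ C).out, fun g => ?_, fun c hc g => ?_⟩
    · have : (QuotientGroup.mk ((QuotientGroup.mk g : G ⧸ C).out) : G ⧸ C) = QuotientGroup.mk g :=
        QuotientGroup.out_eq' _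
      exact QuotientGroup.eq.mp this
    · have : (QuotientGroup.mk (c * g) : G ⧸ C) = QuotientGroup.mk g := by
        rw [QuotientGroup.eq, hcen c hc g, mul_inv_rev, mul_assoc, inv_mul_cancel, mul_one]
        exact C.inv_mem hc
      simp only
      rw [this]
  have key : ∀ c ∈ C, ∀ g, ∀ h : (rep (c * g))⁻¹ * (c * g) ∈ C, ∀ hc : c ∈ C,
      φ ⟨(rep (c * g))⁻¹ * (c * g), h⟩ = φ ⟨c, hc⟩ + φ ⟨(rep g)⁻¹ * g, hrep g⟩ := by
    intro c hc g h hc'
    rw [← hφ]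
    congr 1
    apply Subtype.ext
    show (rep (c * g))⁻¹ * (c * g) = c * ((rep g)⁻¹ * g)
    rw [hrep2 c hc, ← mul_assoc, ← hcen c hc, mul_assoc]
  have h1 : φ 1 = 0 := by
    have := hφ 1 1
    rw [mul_one] at this
    linear_combination -this
  have hk : ∀ c (hc : c ∈ C), φ ⟨(rep c)⁻¹ * c, hrep c⟩
      = φ ⟨c, hc⟩ + φ ⟨(rep 1)⁻¹ * 1, hrep 1⟩ := by
    intro c hc
    have := key c hc 1 (hrep _) hc
    simp only [mul_one] at this ⊢
    exact this
  refine ⟨fun g => φ ⟨(rep g)⁻¹ * g, hrep g⟩ - φ ⟨(rep 1)⁻¹ * 1, hrep 1⟩, fun c hc g => ?_,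
    fun c => ?_⟩
  · simp only
    rw [key c hc g (hrep _) hc, hk c hc]
    ring
  · simp only
    rw [hk c c.2]
    ring

lemma exists_fun {K V : Type*} [Field K] [AddCommGroup V] [Module K V] (v : V) (hv : v ≠ 0) :
    ∃ f : V →ₗ[K] K, f v = 1 := by
  have h1 : ¬ ∀ f : V →ₗ[K] K, f v = 0 := fun h =>
    hv ((Module.forall_dual_apply_eq_zero_iff K v).mp h)
  push Not at h1
  obtain ⟨f, hf⟩ := h1
  exact ⟨(f v)⁻¹ • f, by rw [LinearMap.smul_apply, smul_eq_mul, inv_mul_cancel₀ hf]⟩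

lemma exists_add' (p : ℕ) [hp : Fact p.Prime] [CharP F p] {V : Type*} [AddCommGroup V]
    (hexp : ∀ a : V, p • a = 0) (z : V) (hz : z ≠ 0) :
    ∃ φ : V → F, (∀ a b, φ (a + b) = φ a + φ b) ∧ φ z = 1 := by
  let _ : Module (ZMod p) V := AddCommGroup.zmodModule (n := p) hexp
  obtain ⟨f, hf⟩ := exists_fun (K := ZMod p) z hz
  refine ⟨fun c => ((ZMod.castHom (dvd_refl p) F) (f c)), fun a b => ?_, ?_⟩
  · simp only [map_add]
  · simp only
    rw [hf, map_one]

/-- an elementary abelian group has enough additive functions to `F`. -/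
lemma exists_add (p : ℕ) [hp : Fact p.Prime] [CharP F p] {C : Type*} [Group C]
    (hcomm : ∀ a b : C, a * b = b * a) (hexp : ∀ a : C, a ^ p = 1) (z : C) (hz : z ≠ 1) :
    ∃ φ : C → F, (∀ a b, φ (a * b) = φ a + φ b) ∧ φ z = 1 := by
  let _ : CommGroup C := { (inferInstance : Group C) with mul_comm := hcomm }
  obtain ⟨φ, h1, h2⟩ := exists_add' (F := F) p (V := Additive C) (fun x => by
    show Additive.ofMul (Additive.toMul x ^ p) = 0
    rw [hexp]
    rfl) (Additive.ofMul z) (fun h => hz (Additive.ofMul.injective h))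
  exact ⟨fun c => φ (Additive.ofMul c), fun a b => h1 (Additive.ofMul a) (Additive.ofMul b), h2⟩

/-- existence of `κ` with value one at a given element -/
lemma exists_kap_one (p : ℕ) [hp : Fact p.Prime] [CharP F p] (C : Subgroup G)
    (hcen : ∀ c ∈ C, ∀ g, c * g = g * c) (hexp : ∀ c ∈ C, c ^ p = 1) (z : G) (hz : z ∈ C)
    (hz1 : z ≠ 1) :
    ∃ κ : G → F, (∀ c ∈ C, ∀ g, κ (c * g) = κ c + κ g) ∧ κ z = 1 := by
  obtain ⟨φ, h1, h2⟩ := exists_add (F := F) p (C := C)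
    (fun a b => Subtype.ext (hcen a a.2 b)) (fun a => Subtype.ext (hexp a a.2)) ⟨z, hz⟩
    (fun h => hz1 (congrArg Subtype.val h))
  obtain ⟨κ, h3, h4⟩ := exists_kap C hcen φ h1
  exact ⟨κ, h3, (h4 ⟨z, hz⟩).trans h2⟩

/-- the form `β` attached to `κ`. -/
lemma exists_dat (C : Subgroup G) (hcen : ∀ c ∈ C, ∀ g, c * g = g * c)
    (hcom : ∀ g h : G, g * h * g⁻¹ * h⁻¹ ∈ C) (π : G →* Q) (hπ : Function.Surjective π)
    (hker : ∀ g, π g = 1 ↔ ∀ h, g * h = h * g) (κ : G → F)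
    (hκ : ∀ c ∈ C, ∀ g, κ (c * g) = κ c + κ g) :
    ∃ β : Q → Q → F, Dat C π κ β := by
  classical
  obtain ⟨s, hs⟩ : ∃ s : Q → G, ∀ q, π (s q) = q := ⟨Function.surjInv hπ, Function.surjInv_eq hπ⟩
  -- commutators only depend on the classes
  have hc1 : ∀ g g' h : G, π g = π g' → g * h * g⁻¹ * h⁻¹ = g' * h * g'⁻¹ * h⁻¹ := by
    intro g g' h e
    have hz : ∀ x, (g'⁻¹ * g) * x = x * (g'⁻¹ * g) := by
      apply (hker _).mp
      rw [map_mul, map_inv, e, inv_mul_cancel]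
    have h1 : g = g' * (g'⁻¹ * g) := by group
    generalize g'⁻¹ * g = z at hz h1
    subst h1
    have h2 : g' * z * h = g' * h * z := by rw [mul_assoc, hz h, mul_assoc]
    rw [h2, mul_inv_rev]
    group
  have hc2 : ∀ g h h' : G, π h = π h' → g * h * g⁻¹ * h⁻¹ = g * h' * g⁻¹ * h'⁻¹ := by
    intro g h h' e
    have := hc1 h h' g e
    have h3 := congrArg (·⁻¹) this
    simp only [mul_inv_rev, inv_inv] at h3
    rw [mul_assoc (g * h), mul_assoc g h, mul_assoc (g * h'), mul_assoc g h']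
    exact h3
  have h10 : κ 1 = 0 := by
    have := hκ 1 C.one_mem 1
    rw [mul_one] at this
    linear_combination -this
  have hb : ∀ g h, κ (s (π g) * s (π h) * (s (π g))⁻¹ * (s (π h))⁻¹) = κ (g * h * g⁻¹ * h⁻¹) := by
    intro g h
    rw [hc1 (s (π g)) g _ (hs _), hc2 g (s (π h)) h (hs _)]
  have hmul : ∀ g g' h : G, κ ((g * g') * h * (g * g')⁻¹ * h⁻¹)
      = κ (g * h * g⁻¹ * h⁻¹) + κ (g' * h * g'⁻¹ * h⁻¹) := by
    intro g g' h
    have e : (g * g') * h * (g * g')⁻¹ * h⁻¹ = (g' * h * g'⁻¹ * h⁻¹) * (g * h * g⁻¹ * h⁻¹) := by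
      have hz := hcen _ (hcom g' h) g
      calc (g * g') * h * (g * g')⁻¹ * h⁻¹ = (g * (g' * h * g'⁻¹ * h⁻¹)) * (h * g⁻¹ * h⁻¹) := by group
        _ = _ := by rw [← hz]; group
    rw [e, hκ _ (hcom g' h), add_comm]
  have hinv : ∀ g h : G, κ (h * g * h⁻¹ * g⁻¹) = - κ (g * h * g⁻¹ * h⁻¹) := by
    intro g h
    have e : (h * g * h⁻¹ * g⁻¹) * (g * h * g⁻¹ * h⁻¹) = 1 := by group
    have := hκ _ (hcom h g) (g * h * g⁻¹ * h⁻¹)
    rw [e, h10] at this
    linear_combination -this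
  refine ⟨fun q r => κ (s q * s r * (s q)⁻¹ * (s r)⁻¹), ⟨hcen, hcom, ?_, hκ, hb, ⟨?_, ?_, ?_⟩⟩⟩
  · intro c hc
    exact (hker c).mpr (hcen c hc)
  · intro q
    have : s q * s q * (s q)⁻¹ * (s q)⁻¹ = 1 := by group
    rw [this, h10]
  · intro q q' r
    rw [← hmul]
    have := hb (s q * s q') (s r)
    rw [map_mul, hs, hs, hs] at this
    exact this
  · intro q r r'
    rw [hinv (s (r * r')) (s q), hinv (s r) (s q), hinv (s r') (s q), ← neg_add, ← hmul]
    have := hb (s r * s r') (s q)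
    rw [map_mul, hs, hs, hs] at this
    rw [this]

end Pool.Agent.V1172.MIP
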