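import Pool.Agent.V1172.MIP.Hom

/-! Pure group theory: gluing two groups of exponent `p` along the commutator correspondence. -/

set_option linter.unusedSectionVars false
set_option linter.unusedSimpArgs false

namespace Pool.Agent.V1172.MIP

variable {G : Type*} [Group G] {H : Type*} [Group H] {Q : Type*} [CommGroup Q]

/-- the product of a subgroup with a central subgroup. -/
lemma sup_cen {X : Type*} [Group X] (L M : Subgroup X) (hM : ∀ m ∈ M, ∀ x, m * x = x * m) :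
    ∃ A : Subgroup X, ∀ x, x ∈ A ↔ ∃ l ∈ L, ∃ m ∈ M, x = l * m := by
  refine ⟨{ carrier := {x | ∃ l ∈ L, ∃ m ∈ M, x = l * m}
            one_mem' := ⟨1, L.one_mem, 1, M.one_mem, by simp⟩
            mul_mem' := ?_
            inv_mem' := ?_ }, fun x => Iff.rfl⟩
  · rintro _ _ ⟨l, hl, m, hm, rfl⟩ ⟨l', hl', m', hm', rfl⟩
    refine ⟨l * l', L.mul_mem hl hl', m * m', M.mul_mem hm hm', ?_⟩
    rw [mul_assoc, ← mul_assoc m, hM m hm l', mul_assoc, mul_assoc]
  · rintro _ ⟨l, hl, m, hm, rfl⟩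
    refine ⟨l⁻¹, L.inv_mem hl, m⁻¹, M.inv_mem hm, ?_⟩
    rw [mul_inv_rev, hM _ (M.inv_mem hm)]

/-- the subgroup generated by a subgroup and an element normalising it. -/
lemma sup_nor {X : Type*} [Group X] (L : Subgroup X) (v : X) (h1 : ∀ l ∈ L, v * l * v⁻¹ ∈ L)
    (h2 : ∀ l ∈ L, v⁻¹ * l * v ∈ L) :
    ∃ A : Subgroup X, ∀ x, x ∈ A ↔ ∃ l ∈ L, ∃ i : ℤ, x = l * v ^ i := by
  have h3 : ∀ i : ℕ, ∀ l ∈ L, v ^ i * l * (v ^ i)⁻¹ ∈ L := by
    intro i
    induction i with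
    | zero => intro l hl; simpa using hl
    | succ i ih =>
      intro l hl
      have : v ^ (i + 1) * l * (v ^ (i + 1))⁻¹ = v * (v ^ i * l * (v ^ i)⁻¹) * v⁻¹ := by
        rw [pow_succ']; group
      rw [this]
      exact h1 _ (ih l hl)
  have h4 : ∀ i : ℕ, ∀ l ∈ L, (v ^ i)⁻¹ * l * (v ^ i) ∈ L := by
    intro i
    induction i with
    | zero => intro l hl; simpa using hl
    | succ i ih =>
      intro l hl
      have : (v ^ (i + 1))⁻¹ * l * (v ^ (i + 1)) = v⁻¹ * ((v ^ i)⁻¹ * l * (v ^ i)) * v := by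
        rw [pow_succ]; group
      rw [this]
      exact h2 _ (ih l hl)
  have h5 : ∀ i : ℤ, ∀ l ∈ L, v ^ i * l * (v ^ i)⁻¹ ∈ L := by
    intro i l hl
    rcases Int.eq_nat_or_neg i with ⟨n, rfl | rfl⟩
    · rw [zpow_natCast]; exact h3 n l hl
    · rw [zpow_neg, zpow_natCast, inv_inv]; exact h4 n l hl
  refine ⟨{ carrier := {x | ∃ l ∈ L, ∃ i : ℤ, x = l * v ^ i}
            one_mem' := ⟨1, L.one_mem, 0, by simp⟩
            mul_mem' := ?_
            inv_mem' := ?_ }, fun x => Iff.rfl⟩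
  · rintro _ _ ⟨l, hl, i, rfl⟩ ⟨l', hl', j, rfl⟩
    refine ⟨l * (v ^ i * l' * (v ^ i)⁻¹), L.mul_mem hl (h5 i l' hl'), i + j, ?_⟩
    rw [zpow_add]
    group
  · rintro _ ⟨l, hl, i, rfl⟩
    refine ⟨v ^ (-i) * l⁻¹ * (v ^ (-i))⁻¹, h5 (-i) _ (L.inv_mem hl), -i, ?_⟩
    group

/-- **Gluing.** -/
theorem glue {p : ℕ} [hp : Fact p.Prime] [Finite H] [Finite G] (hc : Nat.card H = Nat.card G)
    (expH : ∀ h : H, h ^ p = 1) (expG : ∀ g : G, g ^ p = 1) (φ : H →* Q) (π : G →* Q)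
    (hφ : Function.Surjective φ) (hπ : Function.Surjective π)
    (kerφ : ∀ h, φ h = 1 → ∀ k, h * k = k * h) (kerπ : ∀ g, π g = 1 → ∀ l, g * l = l * g)
    (N1 : ∀ x ∈ gr φ π, x.1 = 1 → x.2 = 1) (N2 : ∀ x ∈ gr φ π, x.2 = 1 → x.1 = 1) :
    Nonempty (H ≃* G) := by
  classical
  have expX : ∀ x : H × G, x ^ p = 1 := fun x => Prod.ext (expH _) (expG _)
  let S : Set (Subgroup (H × G)) := {L | gr φ π ≤ L ∧ (∀ x ∈ L, φ x.1 = π x.2) ∧
    (∀ x ∈ L, x.1 = 1 → x.2 = 1) ∧ (∀ x ∈ L, x.2 = 1 → x.1 = 1)}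
  have hgr : ∀ x ∈ gr φ π, φ x.1 = π x.2 := by
    intro x hx
    induction hx using Subgroup.closure_induction with
    | mem x hx =>
      obtain ⟨k, h, g, l, h1, h3, rfl⟩ := hx
      simp only [map_mul, map_inv, h1, h3]
    | one => simp
    | mul x y _ _ hx hy => simp only [Prod.fst_mul, Prod.snd_mul, map_mul, hx, hy]
    | inv x _ hx => simp only [Prod.fst_inv, Prod.snd_inv, map_inv, hx]
  have hS : S.Nonempty := ⟨gr φ π, le_rfl, hgr, N1, N2⟩
  obtain ⟨L, hL⟩ := Set.Finite.exists_maximal S.toFinite hS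
  obtain ⟨⟨hL1, hL2, hL3, hL4⟩, hmax⟩ := hL
  have hcomm : ∀ x y : H × G, φ x.1 = π x.2 → φ y.1 = π y.2 → x * y * x⁻¹ * y⁻¹ ∈ L := by
    intro x y hx hy
    apply hL1
    exact Subgroup.subset_closure ⟨x.1, y.1, x.2, y.2, hx, hy, rfl⟩
  obtain ⟨A, hA⟩ := sup_cen L (Subgroup.prod ⊥ π.ker) (by
    rintro ⟨m1, m2⟩ hm ⟨x1, x2⟩
    rw [Subgroup.mem_prod, Subgroup.mem_bot, MonoidHom.mem_ker] at hm
    obtain ⟨hm1, hm2⟩ := hm
    simp only at hm1 hm2
    subst hm1
    simp only [Prod.mk_mul_mk, one_mul, mul_one, kerπ m2 hm2 x2])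
  obtain ⟨B, hB⟩ := sup_cen L (Subgroup.prod φ.ker ⊥) (by
    rintro ⟨m1, m2⟩ hm ⟨x1, x2⟩
    rw [Subgroup.mem_prod, Subgroup.mem_bot, MonoidHom.mem_ker] at hm
    obtain ⟨hm1, hm2⟩ := hm
    simp only at hm1 hm2
    subst hm2
    simp only [Prod.mk_mul_mk, one_mul, mul_one, kerφ m1 hm1 x1])
  let K : Subgroup (H × G) := MonoidHom.eqLocus (φ.comp (MonoidHom.fst H G)) (π.comp (MonoidHom.snd H G))
  have hK : ∀ x, x ∈ K ↔ φ x.1 = π x.2 := fun x => Iff.rfl
  have hLA : L ≤ A := fun l hl => (hA l).mpr ⟨l, hl, 1, Subgroup.one_mem _, (mul_one _).symm⟩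
  have hLB : L ≤ B := fun l hl => (hB l).mpr ⟨l, hl, 1, Subgroup.one_mem _, (mul_one _).symm⟩
  -- the main claim
  have claim : (K : Set (H × G)) ⊆ A ∪ B := by
    intro v hv
    by_contra hvAB
    rw [Set.mem_union, not_or] at hvAB
    obtain ⟨hvA, hvB⟩ := hvAB
    have hv' : φ v.1 = π v.2 := hv
    have hvi : φ (v⁻¹).1 = π (v⁻¹).2 := by
      rw [Prod.fst_inv, Prod.snd_inv, map_inv, map_inv, hv']
    have n1 : ∀ l ∈ L, v * l * v⁻¹ ∈ L := by
      intro l hl
      have : v * l * v⁻¹ = (v * l * v⁻¹ * l⁻¹) * l := by group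
      rw [this]
      exact L.mul_mem (hcomm v l hv' (hL2 l hl)) hl
    have n2 : ∀ l ∈ L, v⁻¹ * l * v ∈ L := by
      intro l hl
      have : v⁻¹ * l * v = (v⁻¹ * l * v⁻¹⁻¹ * l⁻¹) * l := by group
      rw [this]
      exact L.mul_mem (hcomm _ l hvi (hL2 l hl)) hl
    obtain ⟨L', hL'⟩ := sup_nor L v n1 n2
    have hLL' : L ≤ L' := fun l hl => (hL' l).mpr ⟨l, hl, 0, by simp⟩
    have hzp : ∀ (Z : Subgroup (H × G)), v ∉ Z → ∀ i : ℤ, v ^ i ∈ Z → v ^ i = 1 := by
      intro Z hZ i hi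
      by_contra hne
      have hpi : ¬ (p : ℤ) ∣ i := by
        rintro ⟨j, rfl⟩
        apply hne
        rw [zpow_mul, zpow_natCast, expX, one_zpow]
      have hcop : IsCoprime (p : ℤ) i :=
        (Nat.prime_iff_prime_int.mp hp.out).coprime_iff_not_dvd.mpr hpi
      obtain ⟨a, b, hab⟩ := hcop
      apply hZ
      have : v = (v ^ i) ^ b := by
        calc v = v ^ (a * p + b * i) := by rw [hab, zpow_one]
          _ = _ := by
            rw [zpow_add, mul_comm a, zpow_mul, zpow_natCast, expX, one_zpow, one_mul, mul_comm b,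
              zpow_mul]
      rw [this]
      exact Z.zpow_mem hi b
    have hL'S : L' ∈ S := by
      refine ⟨hL1.trans hLL', ?_, ?_, ?_⟩
      · intro x hx
        obtain ⟨l, hl, i, rfl⟩ := (hL' x).mp hx
        exact K.mul_mem (hL2 l hl) (K.zpow_mem hv i)
      · intro x hx hx1
        obtain ⟨l, hl, i, rfl⟩ := (hL' x).mp hx
        have hxK : φ (l * v ^ i).1 = π (l * v ^ i).2 := K.mul_mem (hL2 l hl) (K.zpow_mem hv i)
        rw [hx1, map_one] at hxK
        have hvi : v ^ i ∈ A := by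
          have h6 : v ^ i = l⁻¹ * (l * v ^ i) := by group
          rw [h6]
          refine (hA _).mpr ⟨l⁻¹, L.inv_mem hl, l * v ^ i, ?_, rfl⟩
          rw [Subgroup.mem_prod, Subgroup.mem_bot, MonoidHom.mem_ker]
          exact ⟨hx1, hxK.symm⟩
        have h7 := hzp A hvA i hvi
        rw [h7, mul_one] at hx1 ⊢
        exact hL3 l hl hx1
      · intro x hx hx1
        obtain ⟨l, hl, i, rfl⟩ := (hL' x).mp hx
        have hxK : φ (l * v ^ i).1 = π (l * v ^ i).2 := K.mul_mem (hL2 l hl) (K.zpow_mem hv i)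
        rw [hx1, map_one] at hxK
        have hvi : v ^ i ∈ B := by
          have h6 : v ^ i = l⁻¹ * (l * v ^ i) := by group
          rw [h6]
          refine (hB _).mpr ⟨l⁻¹, L.inv_mem hl, l * v ^ i, ?_, rfl⟩
          rw [Subgroup.mem_prod, Subgroup.mem_bot, MonoidHom.mem_ker]
          exact ⟨hxK, hx1⟩
        have h7 := hzp B hvB i hvi
        rw [h7, mul_one] at hx1 ⊢
        exact hL4 l hl hx1
    have hle := hmax hL'S hLL'
    exact hvA (hLA (hle ((hL' v).mpr ⟨1, L.one_mem, 1, by simp⟩)))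
  -- the two projections
  let f1 : L →* H := (MonoidHom.fst H G).comp L.subtype
  let f2 : L →* G := (MonoidHom.snd H G).comp L.subtype
  have i1 : Function.Injective f1 := by
    rw [injective_iff_map_eq_one]
    intro x hx
    apply Subtype.ext
    exact Prod.ext hx (hL3 x x.2 hx)
  have i2 : Function.Injective f2 := by
    rw [injective_iff_map_eq_one]
    intro x hx
    apply Subtype.ext
    exact Prod.ext (hL4 x x.2 hx) hx
  have hcard : Nat.card L = Nat.card H := by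
    rcases (SubgroupClass.subset_union).mp claim with h | h
    · apply Nat.card_eq_of_bijective f1 ⟨i1, fun x => ?_⟩
      obtain ⟨g, hg⟩ := hπ (φ x)
      have hx : (x, g) ∈ K := hg.symm
      obtain ⟨l, hl, m, hm, hlm⟩ := (hA _).mp (h hx)
      rw [Subgroup.mem_prod, Subgroup.mem_bot] at hm
      refine ⟨⟨l, hl⟩, ?_⟩
      have := congrArg Prod.fst hlm
      rw [Prod.fst_mul, hm.1, mul_one] at this
      exact this.symm
    · rw [hc]
      apply Nat.card_eq_of_bijective f2 ⟨i2, fun x => ?_⟩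
      obtain ⟨g, hg⟩ := hφ (π x)
      have hx : (g, x) ∈ K := hg
      obtain ⟨l, hl, m, hm, hlm⟩ := (hB _).mp (h hx)
      rw [Subgroup.mem_prod, Subgroup.mem_bot] at hm
      refine ⟨⟨l, hl⟩, ?_⟩
      have := congrArg Prod.snd hlm
      rw [Prod.snd_mul, hm.2, mul_one] at this
      exact this.symm
  have b1 : Function.Bijective f1 := Nat.bijective_iff_injective_and_card f1 |>.mpr ⟨i1, hcard⟩
  have b2 : Function.Bijective f2 :=
    Nat.bijective_iff_injective_and_card f2 |>.mpr ⟨i2, hcard.trans hc⟩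
  exact ⟨(MulEquiv.ofBijective f1 b1).symm.trans (MulEquiv.ofBijective f2 b2)⟩

end Pool.Agent.V1172.MIP
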