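import Pool.Agent.V1172.MIP.Cen

/-! A second group basis: its image in the group algebra of the central quotient. -/

set_option linter.unusedSectionVars false
set_option linter.unusedSimpArgs false

namespace Pool.Agent.V1172.MIP

open Finset MonoidAlgebra

variable {F : Type*} [Field F] {G : Type*} [Group G] {Q : Type*} [CommGroup Q]

lemma D_coeff (φ : Q → F) (y : MonoidAlgebra F Q) (r : Q) :
    (D φ y).coeff r = φ r * y.coeff r := by
  classical
  refine ind (P := fun y => (D φ y).coeff r = φ r * y.coeff r) y (by simp) ?_ ?_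
  · intro a b ha hb
    rw [map_add, MonoidAlgebra.coeff_add, MonoidAlgebra.coeff_add, Finsupp.add_apply,
      Finsupp.add_apply, ha, hb, mul_add]
  · intro c q
    rw [map_smul, D_single, MonoidAlgebra.coeff_smul_apply, MonoidAlgebra.coeff_smul_apply,
      MonoidAlgebra.coeff_single, MonoidAlgebra.coeff_single, Finsupp.single_apply,
      Finsupp.single_apply]
    split_ifs with h
    · rw [h]; simp only [smul_eq_mul]; ring
    · simp

lemma Om_mul_right (p : ℕ) [hp : Fact p.Prime] [CharP F p] {C : Subgroup G} {π : G →* Q}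
    {κ : G → F} {β : Q → Q → F} (d : Dat C π κ β) (k : ℕ) (hk : k < p) (a : MonoidAlgebra F G) :
    ∀ x ∈ IC F C k, Om π κ k (x * a) = Om π κ k x * pm F π a := by
  induction k with
  | zero => intro x _; rw [Om_zero_eq, Om_zero_eq, map_mul]
  | succ k ih =>
    intro x hx
    induction hx using Submodule.span_induction with
    | mem y hy =>
      obtain ⟨c, hc, z, hz, rfl⟩ := hy
      rw [mul_assoc, Om_succ p d hk hc (IC_mul_right k a z hz), Om_succ p d hk hc hz,
        ih (by omega) z hz, smul_mul_assoc]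
    | zero => simp
    | add a b _ _ ha hb => rw [add_mul, map_add, ha, hb, map_add, add_mul]
    | smul a b _ hb => rw [smul_mul_assoc, map_smul, hb, map_smul, smul_mul_assoc]

lemma aug_pm (π : G →* Q) (x : MonoidAlgebra F G) : aug (pm F π x) = aug x := by
  refine ind (P := fun x => aug (pm F π x) = aug x) x (by simp) ?_ ?_
  · intro a b ha hb
    rw [map_add, map_add, map_add, ha, hb]
  · intro c g
    rw [map_smul, map_smul, map_smul, pm_single, aug_single, aug_single]

section
variable {C : Subgroup G} {π : G →* Q} {H : Type*} [Group H] (e : H →* MonoidAlgebra F G)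

/-- the hypotheses on the group `G`, the quotient map `π` and the second group `H`. -/
structure Sit (p : ℕ) (C : Subgroup G) (π : G →* Q) (e : H →* MonoidAlgebra F G) : Prop where
  cen : ∀ c ∈ C, ∀ g, c * g = g * c
  com : ∀ g h : G, g * h * g⁻¹ * h⁻¹ ∈ C
  exp : ∀ g : G, g ^ p = 1
  surj : Function.Surjective π
  ker : ∀ g, π g = 1 ↔ ∀ h, g * h = h * g
  span : Submodule.span F (Set.range e) = ⊤
  augm : ∀ h, aug (e h) = 1
  expH : ∀ h : H, h ^ p = 1
  comH : ∀ h k l : H, (h * k * h⁻¹ * k⁻¹) * l = l * (h * k * h⁻¹ * k⁻¹)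

variable {e}

lemma Sit.central {p : ℕ} (S : Sit p C π e) (c : H) (hc : ∀ l, c * l = l * c) (x : MonoidAlgebra F G) :
    x * e c = e c * x := by
  have hx : x ∈ Submodule.span F (Set.range e) := by rw [S.span]; trivial
  induction hx using Submodule.span_induction with
  | mem y hy => obtain ⟨l, rfl⟩ := hy; rw [← map_mul, ← map_mul, hc]
  | zero => simp
  | add a b _ _ ha hb => rw [add_mul, mul_add, ha, hb]
  | smul a b _ hb => rw [smul_mul_assoc, mul_smul_comm, hb]

lemma e_comm (k h : H) : e k * e h - e h * e k = (e (k * h * k⁻¹ * h⁻¹) - 1) * (e h * e k) := by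
  rw [sub_mul, one_mul, ← map_mul, ← map_mul, ← map_mul]
  congr 2
  group

lemma e_comm' (k h : H) : e (k * h * k⁻¹ * h⁻¹) - 1 = (e k * e h - e h * e k) * e (h * k)⁻¹ := by
  rw [e_comm, ← map_mul e h k, mul_assoc (e (k * h * k⁻¹ * h⁻¹) - 1), ← map_mul e (h * k),
    mul_inv_cancel, map_one, mul_one]

lemma Sit.mem_IC {p : ℕ} (_S : Sit p C π e) {κ : G → F} {β : Q → Q → F} (d : Dat C π κ β) (k h : H) :
    e (k * h * k⁻¹ * h⁻¹) - 1 ∈ IC F C 1 := by
  rw [e_comm']
  exact IC_mul_right 1 _ _ (IC_comm d 0 (e k) (e h) trivial)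

lemma Sit.key [Fintype G] {p : ℕ} [hp : Fact p.Prime] [CharP F p] (h2 : (2 : F) ≠ 0)
    (S : Sit p C π e) {κ : G → F} {β : Q → Q → F} (d : Dat C π κ β) (k h : H) :
    ∃ s : F, Om π κ 1 (e (k * h * k⁻¹ * h⁻¹) - 1) = MonoidAlgebra.single 1 s ∧
      ad β (pm F π (e k)) (pm F π (e h)) = s • (pm F π (e h) * pm F π (e k)) := by
  have hp1 : 0 + 1 < p := by have := hp.out.two_le; omega
  obtain ⟨s, hs⟩ := Om_central p h2 d S.surj S.ker (fun c _ => S.exp c)
    (e (k * h * k⁻¹ * h⁻¹) - 1) (fun x => by
      rw [mul_sub, sub_mul, S.central _ (S.comH k h), mul_one, one_mul])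
  refine ⟨s, hs, ?_⟩
  have h1 := Om_comm p d 0 (e k) hp1 (e h) trivial
  rw [Om_zero_eq] at h1
  rw [← h1, e_comm, Om_mul_right p d (0 + 1) hp1 _ _ (S.mem_IC d k h)]
  show Om π κ 1 _ * _ = _
  rw [hs, single_eq_smul, ← MonoidAlgebra.one_def, smul_mul_assoc, one_mul, map_mul]

lemma Sit.pow_ad {β : Q → Q → F} (hβ : Alt β) (y x : MonoidAlgebra F Q) (s : F)
    (hxy : ad β x y = s • (y * x)) (n : ℕ) : ((ad β x) ^ n) y = s ^ n • (y * x ^ n) := by
  induction n with
  | zero => simp
  | succ n ih =>
    have hx : ∀ n : ℕ, ad β x (x ^ n) = 0 := by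
      intro n
      induction n with
      | zero =>
        rw [pow_zero, ad_anti hβ, ad_one hβ, LinearMap.zero_apply, neg_zero]
      | succ n ih => rw [pow_succ, ad_mul hβ, ih, ad_self hβ]; simp
    rw [pow_succ', Module.End.mul_apply, ih, map_smul, ad_mul hβ, hxy, hx, mul_zero, add_zero,
      smul_mul_assoc, smul_smul, mul_assoc, ← pow_succ, ← pow_succ']

/-- **The image of a second group basis in `F[G/Z(G)]` consists of group elements.** -/
theorem Sit.grouplike [Fintype G] {p : ℕ} [hp : Fact p.Prime] [CharP F p] (h2 : (2 : F) ≠ 0)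
    (S : Sit p C π e) (h : H) : ∃ q : Q, pm F π (e h) = MonoidAlgebra.single q 1 := by
  classical
  set y := pm F π (e h) with hy
  have hQ : ∀ q : Q, q ^ p = 1 := by
    intro q
    obtain ⟨g, rfl⟩ := S.surj q
    rw [← map_pow, S.exp, map_one]
  have hsupp : ∀ r r' : Q, y.coeff r ≠ 0 → y.coeff r' ≠ 0 → r = r' := by
    intro r r' hr hr'
    obtain ⟨l, rfl⟩ := S.surj r
    obtain ⟨l', rfl⟩ := S.surj r'
    by_contra hne
    -- some commutators differ
    have h3 : ¬ ∀ g, (l'⁻¹ * l) * g = g * (l'⁻¹ * l) := by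
      rw [← S.ker, map_mul, map_inv, inv_mul_eq_one]
      exact fun h => hne h.symm
    push Not at h3
    obtain ⟨g, hg⟩ := h3
    obtain ⟨z, hz⟩ : ∃ z, z = (g * l * g⁻¹ * l⁻¹) * (g * l' * g⁻¹ * l'⁻¹)⁻¹ := ⟨_, rfl⟩
    have hzC : z ∈ C := by
      rw [hz]; exact C.mul_mem (S.com _ _) (C.inv_mem (S.com _ _))
    have hz1 : z ≠ 1 := by
      intro h0
      rw [h0, eq_comm, mul_inv_eq_one] at hz
      apply hg
      have h4 : l⁻¹ * g * l = l'⁻¹ * g * l' := by
        have h5 : g * l * g⁻¹ * l⁻¹ = g * l' * g⁻¹ * l'⁻¹ := hz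
        have h6 : l * g⁻¹ * l⁻¹ = l' * g⁻¹ * l'⁻¹ := by
          have := congrArg (g⁻¹ * ·) h5
          simp only [← mul_assoc, inv_mul_cancel, one_mul] at this
          exact this
        have h7 : l * g * l⁻¹ = l' * g * l'⁻¹ := by
          have := congrArg (·⁻¹) h6
          simp only [mul_inv_rev, inv_inv] at this
          rw [← mul_assoc, ← mul_assoc] at this
          exact this
        -- commutators with `l` are central
        have h8 : ∀ m : G, m⁻¹ * g * m = (m * g * m⁻¹ * g⁻¹)⁻¹ * g := by
          intro m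
          have hc := S.cen _ (S.com m g) (m⁻¹)
          have e1 : m⁻¹ * (m * g * m⁻¹ * g⁻¹) = g * m⁻¹ * g⁻¹ := by group
          rw [← hc] at e1
          have e2 : (m * g * m⁻¹ * g⁻¹) = g * m⁻¹ * g⁻¹ * m := by
            rw [← e1]; group
          rw [e2]
          group
        rw [h8 l, h8 l', h7]
      calc l'⁻¹ * l * g = l'⁻¹ * l * (g * l⁻¹) * l := by group
        _ = l'⁻¹ * (l * g * l⁻¹) * l := by group
        _ = _ := by
          have h9 : l * g * l⁻¹ = l' * g * l'⁻¹ := by
            have h5 : g * l * g⁻¹ * l⁻¹ = g * l' * g⁻¹ * l'⁻¹ := hz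
            have h6 : l * g⁻¹ * l⁻¹ = l' * g⁻¹ * l'⁻¹ := by
              have := congrArg (g⁻¹ * ·) h5
              simp only [← mul_assoc, inv_mul_cancel, one_mul] at this
              exact this
            have := congrArg (·⁻¹) h6
            simp only [mul_inv_rev, inv_inv] at this
            rw [← mul_assoc, ← mul_assoc] at this
            exact this
          rw [h9]
          group
    obtain ⟨κ, hκ, hκz⟩ := exists_kap_one (F := F) p C S.cen (fun c _ => S.exp c) z hzC hz1
    obtain ⟨β, d⟩ := exists_dat C S.cen S.com π S.surj S.ker κ hκ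
    -- the two linear forms agree
    have hl : ∀ k : H, lam π β (π l) (e k) = lam π β (π l') (e k) := by
      intro k
      obtain ⟨s, hs1, hs2⟩ := S.key h2 d k h
      have hpow := Sit.pow_ad d.alt y (pm F π (e k)) s hs2 p
      have hk1 : pm F π (e k) ^ p = 1 := by rw [← map_pow, ← map_pow, S.expH, map_one, map_one]
      rw [hk1, mul_one] at hpow
      have hNu : Nu p (e k) = 0 := by
        unfold Nu
        rw [← map_pow, S.expH, map_one, S.augm, one_pow, one_smul, sub_self]
      have hT : (ad β (pm F π (e k))) ^ p = D (fun r => (lam π β r (e k)) ^ p) := by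
        refine lext fun r => ?_
        have := eig p d (fun g => by rw [S.exp]; simp [← MonoidAlgebra.one_def]) hQ (e k) r
        rw [hNu, map_zero, map_zero, LinearMap.zero_apply, sub_zero] at this
        rw [this, D_single, ← single_eq_smul]
      rw [hT] at hpow
      have hcf : ∀ r, (lam π β r (e k)) ^ p * y.coeff r = s ^ p * y.coeff r := by
        intro r
        have h0 : (D (fun r => (lam π β r (e k)) ^ p) y).coeff r = (s ^ p • y).coeff r := by
          rw [hpow]
        rw [D_coeff, MonoidAlgebra.coeff_smul_apply, smul_eq_mul] at h0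
        exact h0
      have hinj : ∀ a b : F, a ^ p = b ^ p → a = b := fun a b hab => frobenius_inj F p hab
      have e1 := hinj _ _ (mul_right_cancel₀ hr (hcf (π l)))
      have e2 := hinj _ _ (mul_right_cancel₀ hr' (hcf (π l')))
      rw [e1, e2]
    have hl2 : lam π β (π l) = lam π β (π l') := by
      refine LinearMap.ext fun x => ?_
      have hx : x ∈ Submodule.span F (Set.range e) := by rw [S.span]; trivial
      induction hx using Submodule.span_induction with
      | mem y hy => obtain ⟨l, rfl⟩ := hy; exact hl l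
      | zero => simp
      | add a b _ _ ha hb => rw [map_add, map_add, ha, hb]
      | smul a b _ hb => rw [map_smul, map_smul, hb]
    have h5 := congrArg (fun f => f (MonoidAlgebra.single g 1)) hl2
    simp only [lam_single] at h5
    rw [d.beta, d.beta] at h5
    have h6 : g * l * g⁻¹ * l⁻¹ = z * (g * l' * g⁻¹ * l'⁻¹) := by rw [hz]; group
    rw [h6, d.kap z hzC, hκz] at h5
    have : (1 : F) = 0 := by linear_combination h5
    exact one_ne_zero this
  have haug : aug y = 1 := by rw [hy, aug_pm, S.augm]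
  have hne : ∃ r, y.coeff r ≠ 0 := by
    by_contra hcon
    push Not at hcon
    have : y = 0 := by
      apply MonoidAlgebra.coeff_injective
      ext r
      rw [hcon r]
      simp
    rw [this, map_zero] at haug
    exact zero_ne_one haug
  obtain ⟨r, hr⟩ := hne
  have hy2 : y = MonoidAlgebra.single r (y.coeff r) := by
    apply MonoidAlgebra.coeff_injective
    ext r'
    rw [MonoidAlgebra.coeff_single, Finsupp.single_apply]
    split_ifs with hrr
    · rw [hrr]
    · by_contra h0
      exact hrr (hsupp r r' hr h0)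
  rw [hy2, aug_single] at haug
  exact ⟨r, by rw [hy2, haug]⟩

end

end Pool.Agent.V1172.MIP
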