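import Pool.Agent.V1172.MIP.Grp

/-! The homomorphism from the second group to the central quotient of the first. -/

set_option linter.unusedSectionVars false
set_option linter.unusedSimpArgs false

namespace Pool.Agent.V1172.MIP

open Finset MonoidAlgebra

variable {F : Type*} [Field F] {G : Type*} [Group G] {Q : Type*} [CommGroup Q]
variable {C : Subgroup G} {π : G →* Q} {H : Type*} [Group H] {e : H →* MonoidAlgebra F G}

/-- the graph of the commutator correspondence -/
def gr (φ : H →* Q) (π : G →* Q) : Subgroup (H × G) :=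
  Subgroup.closure {x : H × G | ∃ k h : H, ∃ g l : G, φ k = π g ∧ φ h = π l ∧
    x = (k * h * k⁻¹ * h⁻¹, g * l * g⁻¹ * l⁻¹)}

lemma kap_one {κ : G → F} (hκ : ∀ c ∈ C, ∀ g, κ (c * g) = κ c + κ g) : κ 1 = 0 := by
  have := hκ 1 C.one_mem 1
  rw [mul_one] at this
  linear_combination -this

lemma Sit.rel [Fintype G] {p : ℕ} [hp : Fact p.Prime] [CharP F p] (h2 : (2 : F) ≠ 0)
    (S : Sit p C π e) (φ : H →* Q) (hφ : ∀ h, pm F π (e h) = MonoidAlgebra.single (φ h) 1)
    {κ : G → F} (hκ : ∀ c ∈ C, ∀ g, κ (c * g) = κ c + κ g) (x : H × G) (hx : x ∈ gr φ π) :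
    x.2 ∈ C ∧ e x.1 - 1 ∈ IC F C 1 ∧ Om π κ 1 (e x.1 - 1) = MonoidAlgebra.single 1 (κ x.2) := by
  have hp0 : 0 < p := hp.out.pos
  have hp1 : 1 < p := hp.out.one_lt
  obtain ⟨β, d⟩ := exists_dat C S.cen S.com π S.surj S.ker κ hκ
  have hk1 := kap_one hκ
  have hpm : ∀ y ∈ IC F C 1, pm F π y = 0 := fun y hy => by
    rw [← Om_zero_eq π κ, Om_vanish p d 1 0 one_pos hp0 y hy]
  induction hx using Subgroup.closure_induction with
  | mem x hx =>
    obtain ⟨k, h, g, l, h1, h3, rfl⟩ := hx
    refine ⟨S.com g l, S.mem_IC d k h, ?_⟩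
    obtain ⟨s, hs1, hs2⟩ := S.key h2 d k h
    rw [hφ, hφ, h1, h3, ad_single, MonoidAlgebra.single_mul_single, mul_one,
      MonoidAlgebra.smul_single, smul_eq_mul, mul_one, mul_comm (π l), MonoidAlgebra.single_right_inj,
      d.beta] at hs2
    simp only
    rw [hs1, hs2]
  | one =>
    refine ⟨C.one_mem, ?_, ?_⟩
    · simp
    · simp [hk1]
  | mul x y _ _ hx hy =>
    obtain ⟨a1, a2, a3⟩ := hx
    obtain ⟨b1, b2, b3⟩ := hy
    have hxy : e (x * y).1 - 1 = (e x.1 - 1) * (e y.1 - 1) + (e x.1 - 1) + (e y.1 - 1) := by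
      rw [Prod.fst_mul, map_mul]
      noncomm_ring
    refine ⟨C.mul_mem a1 b1, ?_, ?_⟩
    · rw [hxy]
      exact Submodule.add_mem _ (Submodule.add_mem _ (IC_mul_right 1 _ _ a2) a2) b2
    · rw [hxy, map_add, map_add, Om_mul_right p d 1 hp1 _ _ a2, hpm _ b2, mul_zero, zero_add, a3, b3,
        ← MonoidAlgebra.single_add, Prod.snd_mul, hκ _ a1]
  | inv x _ hx =>
    obtain ⟨a1, a2, a3⟩ := hx
    have hxi : e (x⁻¹).1 - 1 = (e x.1 - 1) * (- e (x⁻¹).1) := by
      rw [Prod.fst_inv, mul_neg, sub_mul, one_mul, ← map_mul, mul_inv_cancel, map_one]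
      abel
    have h5 : pm F π (e (x⁻¹).1) = 1 := by
      have h6 : pm F π (e x.1) = 1 := by
        have := hpm _ a2
        rw [map_sub, map_one, sub_eq_zero] at this
        exact this
      have h7 : pm F π (e (x⁻¹).1) * pm F π (e x.1) = 1 := by
        rw [← map_mul, ← map_mul, Prod.fst_inv, inv_mul_cancel, map_one, map_one]
      rwa [h6, mul_one] at h7
    refine ⟨C.inv_mem a1, ?_, ?_⟩
    · rw [hxi]
      exact IC_mul_right 1 _ _ a2
    · rw [hxi, Om_mul_right p d 1 hp1 _ _ a2, map_neg, h5, a3, mul_neg, mul_one,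
        ← MonoidAlgebra.single_neg]
      congr 1
      have := hκ _ (C.inv_mem a1) x.2
      rw [inv_mul_cancel, hk1] at this
      rw [Prod.snd_inv]
      linear_combination this

theorem Sit.hom [Fintype G] {p : ℕ} [hp : Fact p.Prime] [CharP F p] (h2 : (2 : F) ≠ 0)
    (S : Sit p C π e) : ∃ φ : H →* Q, Function.Surjective φ ∧
      ∀ x ∈ gr φ π, x.1 = 1 → x.2 = 1 := by
  classical
  choose f hf using fun h => S.grouplike h2 h
  have hinj : ∀ q q' : Q, (MonoidAlgebra.single q (1 : F)) = MonoidAlgebra.single q' 1 → q = q' :=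
    fun q q' h => MonoidAlgebra.single_left_injective one_ne_zero h
  let φ : H →* Q :=
    { toFun := f
      map_one' := by
        apply hinj
        rw [← hf, map_one, map_one]
        rfl
      map_mul' := fun a b => by
        apply hinj
        rw [← hf, map_mul, map_mul, hf, hf, MonoidAlgebra.single_mul_single, mul_one] }
  have hφ : ∀ h, pm F π (e h) = MonoidAlgebra.single (φ h) 1 := hf
  refine ⟨φ, ?_, ?_⟩
  · intro q
    by_contra hcon
    push Not at hcon
    obtain ⟨g, rfl⟩ := S.surj q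
    have h3 : ∀ x : MonoidAlgebra F G, (pm F π x).coeff (π g) = 0 := by
      intro x
      have hx : x ∈ Submodule.span F (Set.range e) := by rw [S.span]; trivial
      induction hx using Submodule.span_induction with
      | mem y hy =>
        obtain ⟨l, rfl⟩ := hy
        rw [hφ, MonoidAlgebra.coeff_single, Finsupp.single_eq_of_ne (hcon l).symm]
      | zero => simp
      | add a b _ _ ha hb => rw [map_add, MonoidAlgebra.coeff_add, Finsupp.add_apply, ha, hb, add_zero]
      | smul a b _ hb => rw [map_smul, MonoidAlgebra.coeff_smul_apply, hb, smul_zero]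
    have h4 := h3 (MonoidAlgebra.single g 1)
    rw [pm_single, MonoidAlgebra.coeff_single, Finsupp.single_eq_same] at h4
    exact one_ne_zero h4
  · intro x hx hx1
    by_contra hne
    have hxC : x.2 ∈ C := (S.rel h2 φ hφ (κ := 0) (fun _ _ _ => by simp) x hx).1
    obtain ⟨κ, hκ, hκz⟩ := exists_kap_one (F := F) p C S.cen (fun c _ => S.exp c) x.2 hxC hne
    obtain ⟨-, -, h5⟩ := S.rel h2 φ hφ hκ x hx
    rw [hx1, map_one, sub_self, map_zero, hκz] at h5
    exact MonoidAlgebra.single_ne_zero.mpr one_ne_zero h5.symm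

end Pool.Agent.V1172.MIP
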