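import Mathlib

/-! Jacobson's formula for `(a + b) ^ p` in characteristic `p`. -/

set_option linter.unusedSectionVars false
set_option linter.unusedSimpArgs false

namespace Pool.Agent.V1172.MIP

open Finset Polynomial

/-- The coefficients of `ad (t a + b) ^ n (a)`, for a bracket `br`. -/
def cf {L : Type*} [AddCommGroup L] (br : L → L → L) (a b : L) : ℕ → ℕ → L
  | 0, 0 => a
  | 0, _ + 1 => 0
  | n + 1, 0 => br b (cf br a b n 0)
  | n + 1, j + 1 => br a (cf br a b n j) + br b (cf br a b n (j + 1))

section
variable {R : Type*} [Ring R]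

/-- commutator -/
def cm (x y : R) : R := x * y - y * x

lemma coeff_adn (a b : R) (n : ℕ) : ∀ j, ((fun y : R[X] => cm (C a * X + C b) y)^[n] (C a)).coeff j
    = cf cm a b n j := by
  induction n with
  | zero =>
    intro j
    cases j with
    | zero => simp [cf]
    | succ j => simp [cf]
  | succ n ih =>
    intro j
    rw [Function.iterate_succ_apply']
    generalize ((fun y : R[X] => cm (C a * X + C b) y)^[n] (C a)) = y at ih
    have e : cm (C a * X + C b) y = (C a * y - y * C a) * X + (C b * y - y * C b) := by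
      unfold cm
      have : X * y = y * X := X_mul
      have h2 : C a * X * y = C a * y * X := by rw [mul_assoc, this, mul_assoc]
      rw [add_mul, h2, mul_add, ← mul_assoc, sub_mul]
      abel
    rw [e]
    cases j with
    | zero =>
      rw [coeff_add, coeff_mul_X_zero, zero_add, coeff_sub, coeff_C_mul, coeff_mul_C, ih]
      rfl
    | succ j =>
      rw [coeff_add, coeff_mul_X, coeff_sub, coeff_sub, coeff_C_mul, coeff_mul_C, coeff_C_mul,
        coeff_mul_C, ih, ih]
      rfl

lemma choose_pred (p : ℕ) [hp : Fact p.Prime] [CharP R p] (m : ℕ) (hm : m < p) :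
    (((p - 1).choose m : ℕ) : R) = (-1) ^ m := by
  induction m with
  | zero => simp
  | succ m ih =>
    have h1 := ih (by omega)
    have h2 : ((p.choose (m + 1) : ℕ) : R) = 0 :=
      (CharP.cast_eq_zero_iff R p _).mpr (hp.out.dvd_choose_self (by omega) hm)
    have h3 : p.choose (m + 1) = (p - 1).choose m + (p - 1).choose (m + 1) := by
      have : p = (p - 1) + 1 := by have := hp.out.pos; omega
      conv_lhs => rw [this]
      exact Nat.choose_succ_succ _ _
    rw [h3, Nat.cast_add, h1] at h2
    rw [pow_succ]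
    rw [mul_neg_one]
    exact (neg_eq_of_add_eq_zero_right h2).symm

lemma neg_one_pow_pred (p : ℕ) [hp : Fact p.Prime] [CharP R p] : (-1 : R) ^ (p - 1) = 1 := by
  rcases hp.out.eq_two_or_odd' with h | h
  · subst h
    have : (2 : R) = 0 := by exact_mod_cast CharP.cast_eq_zero R 2
    have h2 : (1 : R) + 1 = 0 := by rw [← this]; norm_num
    simp only [Nat.add_one_sub_one, pow_one]
    exact neg_eq_of_add_eq_zero_left h2
  · obtain ⟨k, hk⟩ := h
    have : p - 1 = 2 * k := by omega
    rw [this, pow_mul]
    simp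

/-- `∑ x^j y x^(p-1-j) = ad(x)^(p-1)(y)` in characteristic `p`. -/
lemma sum_eq_ad (p : ℕ) [hp : Fact p.Prime] [CharP R p] (x y : R) :
    ∑ j ∈ range p, x ^ j * y * x ^ (p - 1 - j) = (fun y => cm x y)^[p - 1] y := by
  obtain ⟨L, hL0⟩ : ∃ L : AddMonoid.End R, ∀ z, L z = x * z :=
    ⟨AddMonoidHom.mulLeft x, fun _ => rfl⟩
  obtain ⟨M, hM0⟩ : ∃ M : AddMonoid.End R, ∀ z, M z = -(z * x) :=
    ⟨(-(AddMonoidHom.mulRight x : R →+ R) : R →+ R), fun _ => rfl⟩
  have hl : Commute L M := by
    ext z
    show L (M z) = M (L z)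
    rw [hL0, hM0, hM0, hL0, mul_neg, mul_assoc]
  have h1 : ∀ n (z : R), (fun y => cm x y)^[n] z = ((L + M) ^ n) z := by
    intro n
    induction n with
    | zero => intro z; simp
    | succ n ih =>
      intro z
      rw [Function.iterate_succ_apply, ih, pow_succ]
      show _ = ((L + M) ^ n) ((L + M) z)
      congr 1
      show x * z - z * x = L z + M z
      rw [hL0, hM0, sub_eq_add_neg]
  have hL : ∀ n (z : R), (L ^ n) z = x ^ n * z := by
    intro n
    induction n with
    | zero => intro z; simp
    | succ n ih =>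
      intro z
      rw [pow_succ]
      show (L ^ n) (L z) = _
      rw [hL0, ih, pow_succ, mul_assoc]
  have hR : ∀ n (z : R), (M ^ n) z = (-1) ^ n * (z * x ^ n) := by
    intro n
    induction n with
    | zero => intro z; simp
    | succ n ih =>
      intro z
      rw [pow_succ]
      show (M ^ n) (M z) = _
      rw [hM0, ih, pow_succ, pow_succ']
      simp [mul_assoc]
  rw [h1, hl.add_pow]
  have hp1 : p - 1 + 1 = p := by have := hp.out.pos; omega
  rw [hp1]
  have hsum : ∀ (s : Finset ℕ) (g : ℕ → AddMonoid.End R), (∑ m ∈ s, g m) y = ∑ m ∈ s, (g m) y := by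
    intro s g
    induction s using Finset.induction_on with
    | empty => simp
    | insert a s ha ih =>
      rw [sum_insert ha, sum_insert ha, ← ih]
      rfl
  rw [hsum]
  symm
  refine sum_congr rfl fun j hj => ?_
  rw [mem_range] at hj
  have hc : ((((p - 1).choose j : ℕ) : AddMonoid.End R)) y = (-1) ^ j * y := by
    rw [← choose_pred (R := R) p j hj]
    simp
  show (L ^ j) ((M ^ (p - 1 - j)) ((((p - 1).choose j : ℕ) : AddMonoid.End R) y)) = _
  rw [hc, hR, hL]
  have hcom : ∀ z : R, (-1 : R) ^ (p - 1 - j) * ((-1) ^ j * z) = z := by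
    intro z
    rw [← mul_assoc, ← pow_add]
    have : p - 1 - j + j = p - 1 := by omega
    rw [this, neg_one_pow_pred p, one_mul]
  have e2 : (-1 : R) ^ j * y * x ^ (p - 1 - j) = (-1) ^ j * (y * x ^ (p - 1 - j)) := mul_assoc _ _ _
  rw [e2, hcom, mul_assoc]

end

section
variable {F : Type*} [Field F] {R : Type*} [Ring R] [Algebra F R]

/-- **Jacobson's formula.** -/
theorem jacobson (p : ℕ) [hp : Fact p.Prime] [CharP F p] [CharP R p] (a b : R) :
    (a + b) ^ p = a ^ p + b ^ p
      + ∑ i ∈ range (p - 1), ((i + 1 : ℕ) : F)⁻¹ • cf cm a b (p - 1) i := by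
  have hppos := hp.out.pos
  have hp1 : p - 1 + 1 = p := by omega
  set f : R[X] := C a * X + C b with hf
  have hder : ∀ n, derivative (f ^ n) = ∑ j ∈ range n, f ^ j * C a * f ^ (n - 1 - j) := by
    intro n
    induction n with
    | zero => simp
    | succ n ih =>
      rw [pow_succ, derivative_mul, ih, sum_range_succ, sum_mul]
      have hdf : derivative f = C a := by simp [hf]
      rw [hdf]
      congr 1
      · refine sum_congr rfl fun j hj => ?_
        rw [mem_range] at hj
        rw [mul_assoc, ← pow_succ]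
        congr 2
        omega
      · simp
  have hcharX : CharP R[X] p := inferInstance
  have hd : derivative (f ^ p) = (fun y : R[X] => cm f y)^[p - 1] (C a) := by
    rw [hder, sum_eq_ad]
  have hci : ∀ i, i < p - 1 → (f ^ p).coeff (i + 1) = ((i + 1 : ℕ) : F)⁻¹ • cf cm a b (p - 1) i := by
    intro i hi
    have h1 : (derivative (f ^ p)).coeff i = cf cm a b (p - 1) i := by
      rw [hd, hf, coeff_adn]
    rw [coeff_derivative] at h1
    rw [← h1]
    have hne : ((i + 1 : ℕ) : F) ≠ 0 := by
      intro h0
      have := (CharP.cast_eq_zero_iff F p (i + 1)).mp h0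
      exact absurd (Nat.le_of_dvd (by omega) this) (by omega)
    have h2 : (f ^ p).coeff (i + 1) * ((i : R) + 1) = ((i + 1 : ℕ) : F) • (f ^ p).coeff (i + 1) := by
      rw [Nat.cast_smul_eq_nsmul, nsmul_eq_mul]
      push_cast
      have hc : Commute ((i : R) + 1) ((f ^ p).coeff (i + 1)) :=
        (Nat.cast_commute i _).add_left (Commute.one_left _)
      exact hc.symm.eq
    rw [h2, smul_smul, inv_mul_cancel₀ hne, one_smul]
  have hdeg : f.natDegree ≤ 1 := by
    rw [hf]
    exact natDegree_linear_le
  have hdegp : (f ^ p).natDegree < p + 1 := by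
    have := natDegree_pow_le_of_le p hdeg
    omega
  have h0 : (f ^ p).coeff 0 = b ^ p := by
    have : ∀ n, (f ^ n).coeff 0 = b ^ n := by
      intro n
      induction n with
      | zero => simp
      | succ n ih => rw [pow_succ, mul_coeff_zero, ih, pow_succ]; simp [hf]
    exact this p
  have hpp : (f ^ p).coeff p = a ^ p := by
    have := coeff_pow_of_natDegree_le (m := p) hdeg
    rw [mul_one] at this
    rw [this]
    simp [hf]
  let φ : R[X] →+* R := eval₂RingHom' (RingHom.id R) 1 (fun r => Commute.one_right _)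
  have hφf : φ f = a + b := by
    show eval₂ (RingHom.id R) 1 f = _
    have h1 : φ (C a) = a := eval₂_C _ _
    have h2 : φ (C b) = b := eval₂_C _ _
    have h3 : φ X = 1 := eval₂_X _ _
    have : φ f = a + b := by rw [hf, map_add, map_mul, h1, h2, h3, mul_one]
    exact this
  have hφp : φ (f ^ p) = ∑ i ∈ range (p + 1), (f ^ p).coeff i := by
    show eval₂ (RingHom.id R) 1 (f ^ p) = _
    rw [eval₂_eq_sum_range' _ hdegp]
    simp
  rw [map_pow, hφf] at hφp
  rw [hφp, sum_range_succ, hpp]
  have hr : range p = range (p - 1 + 1) := by rw [hp1]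
  rw [hr, sum_range_succ', h0, sum_congr rfl fun i hi => hci i (mem_range.mp hi)]
  abel

end

end Pool.Agent.V1172.MIP
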