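import Pool.Agent.V1172.MIP.Cls
import Pool.Agent.V1172.MIP.Glue

/-! The modular isomorphism problem over all fields for groups of class two and exponent `p`. -/

set_option linter.unusedSectionVars false
set_option linter.unusedSimpArgs false

namespace Pool.Agent.V1172.MIP

open Finset MonoidAlgebra

universe u v w

/-- the subgroup generated by the commutators -/
def cmt (G : Type*) [Group G] : Subgroup G :=
  Subgroup.closure {x | ∃ g h : G, x = g * h * g⁻¹ * h⁻¹}

lemma com_mem_cmt {G : Type*} [Group G] (g h : G) : g * h * g⁻¹ * h⁻¹ ∈ cmt G :=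
  Subgroup.subset_closure ⟨g, h, rfl⟩

lemma cen_cmt {G : Type*} [Group G]
    (hG : ∀ g h l : G, (g * h * g⁻¹ * h⁻¹) * l = l * (g * h * g⁻¹ * h⁻¹)) :
    ∀ c ∈ cmt G, ∀ g, c * g = g * c := by
  intro c hc
  have : c ∈ Subgroup.center G := by
    refine (Subgroup.closure_le (Subgroup.center G)).mpr ?_ hc
    rintro _ ⟨g, h, rfl⟩
    exact Subgroup.mem_center_iff.mpr fun l => (hG g h l).symm
  exact fun g => (Subgroup.mem_center_iff.mp this g).symm

lemma exists_quot {G : Type u} [Group G] (N : Subgroup G) (hN : ∀ c ∈ N, ∀ g, c * g = g * c)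
    (hcom : ∀ g h : G, g * h * g⁻¹ * h⁻¹ ∈ N) :
    ∃ (Q : Type u) (_ : CommGroup Q) (π : G →* Q), Function.Surjective π ∧
      ∀ g, π g = 1 ↔ g ∈ N := by
  have hn : N.Normal := ⟨fun c hc g => by rw [← hN c hc, mul_inv_cancel_right]; exact hc⟩
  let I : CommGroup (G ⧸ N) := { (inferInstance : Group (G ⧸ N)) with
    mul_comm := by
      intro a b
      induction a using QuotientGroup.induction_on with
      | H a =>
        induction b using QuotientGroup.induction_on with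
        | H b =>
          rw [← QuotientGroup.mk_mul, ← QuotientGroup.mk_mul, QuotientGroup.eq]
          have h1 : (a * b)⁻¹ * (b * a) = b⁻¹ * a⁻¹ * b⁻¹⁻¹ * a⁻¹⁻¹ := by group
          rw [h1]
          exact hcom _ _ }
  exact ⟨G ⧸ N, I, QuotientGroup.mk' N, QuotientGroup.mk'_surjective N,
    fun g => QuotientGroup.eq_one_iff g⟩

section
variable {G : Type*} [Group G] {H : Type*} [Group H] {Q : Type*} [CommGroup Q]

lemma gr_fst (φ : H →* Q) (π : G →* Q) : ∀ x ∈ gr φ π, x.1 ∈ cmt H := by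
  intro x hx
  induction hx using Subgroup.closure_induction with
  | mem x hx =>
    obtain ⟨k, h, g, l, h1, h3, rfl⟩ := hx
    exact com_mem_cmt k h
  | one => exact Subgroup.one_mem _
  | mul x y _ _ hx hy => exact Subgroup.mul_mem _ hx hy
  | inv x _ hx => exact Subgroup.inv_mem _ hx

lemma gr_snd (φ : H →* Q) (π : G →* Q) : ∀ x ∈ gr φ π, x.2 ∈ cmt G := by
  intro x hx
  induction hx using Subgroup.closure_induction with
  | mem x hx =>
    obtain ⟨k, h, g, l, h1, h3, rfl⟩ := hx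
    exact com_mem_cmt g l
  | one => exact Subgroup.one_mem _
  | mul x y _ _ hx hy => exact Subgroup.mul_mem _ hx hy
  | inv x _ hx => exact Subgroup.inv_mem _ hx

lemma gr_snd_surj (φ : H →* Q) (π : G →* Q) (hφ : Function.Surjective φ) :
    ∀ c ∈ cmt G, ∃ x ∈ gr φ π, x.2 = c := by
  intro c hc
  unfold cmt at hc
  induction hc using Subgroup.closure_induction with
  | mem x hx =>
    obtain ⟨g, l, rfl⟩ := hx
    obtain ⟨k, hk⟩ := hφ (π g)
    obtain ⟨h, hh⟩ := hφ (π l)
    exact ⟨_, Subgroup.subset_closure ⟨k, h, g, l, hk, hh, rfl⟩, rfl⟩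
  | one => exact ⟨1, Subgroup.one_mem _, rfl⟩
  | mul a b _ _ ha hb =>
    obtain ⟨x, hx, rfl⟩ := ha
    obtain ⟨y, hy, rfl⟩ := hb
    exact ⟨x * y, Subgroup.mul_mem _ hx hy, rfl⟩
  | inv a _ ha =>
    obtain ⟨x, hx, rfl⟩ := ha
    exact ⟨x⁻¹, Subgroup.inv_mem _ hx, rfl⟩

variable [Finite G] [Finite H]

lemma gr_le (φ : H →* Q) (π : G →* Q) (N1 : ∀ x ∈ gr φ π, x.1 = 1 → x.2 = 1) :
    Nat.card (gr φ π) ≤ Nat.card (cmt H) := by
  let f : gr φ π → cmt H := fun x => ⟨x.1.1, gr_fst φ π x x.2⟩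
  apply Nat.card_le_card_of_injective f
  intro x y hxy
  have h1 : x.1.1 = y.1.1 := congrArg Subtype.val hxy
  have h2 := N1 (x.1 * y.1⁻¹) (Subgroup.mul_mem _ x.2 (Subgroup.inv_mem _ y.2)) (by
    rw [Prod.fst_mul, Prod.fst_inv, h1, mul_inv_cancel])
  rw [Prod.snd_mul, Prod.snd_inv, mul_inv_eq_one] at h2
  exact Subtype.ext (Prod.ext h1 h2)

lemma gr_ge (φ : H →* Q) (π : G →* Q) (hφ : Function.Surjective φ) :
    Nat.card (cmt G) ≤ Nat.card (gr φ π) := by
  let f : gr φ π → cmt G := fun x => ⟨x.1.2, gr_snd φ π x x.2⟩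
  apply Nat.card_le_card_of_surjective f
  rintro ⟨c, hc⟩
  obtain ⟨x, hx, rfl⟩ := gr_snd_surj φ π hφ c hc
  exact ⟨⟨x, hx⟩, rfl⟩

lemma gr_inj (φ : H →* Q) (π : G →* Q) (hφ : Function.Surjective φ)
    (hle : Nat.card (gr φ π) ≤ Nat.card (cmt G)) : ∀ x ∈ gr φ π, x.2 = 1 → x.1 = 1 := by
  let f : gr φ π → cmt G := fun x => ⟨x.1.2, gr_snd φ π x x.2⟩
  have hs : Function.Surjective f := by
    rintro ⟨c, hc⟩
    obtain ⟨x, hx, rfl⟩ := gr_snd_surj φ π hφ c hc
    exact ⟨⟨x, hx⟩, rfl⟩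
  have hb := Function.Surjective.bijective_of_nat_card_le hs hle
  intro x hx hx2
  have : (⟨x, hx⟩ : gr φ π) = 1 := hb.1 (Subtype.ext hx2)
  have h2 : x = 1 := congrArg Subtype.val this
  rw [h2]
  rfl

end

section
variable {F : Type v} [Field F]

lemma aug_one_of {p : ℕ} [hp : Fact p.Prime] [CharP F p] {G : Type*} [Group G]
    (x : MonoidAlgebra F G) (m : ℕ) (hx : x ^ p ^ m = 1) : aug x = 1 := by
  have h1 : aug x ^ p ^ m = 1 := by rw [← map_pow, hx, map_one]
  have h2 : (aug x - 1) ^ p ^ m = 0 := by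
    rw [sub_pow_char_pow, h1, one_pow, sub_self]
  exact sub_eq_zero.mp (pow_eq_zero_iff (pow_ne_zero m hp.out.ne_zero) |>.mp h2)

/-- a group of exponent `p` and class at most two -/
structure Nice (p : ℕ) (G : Type*) [Group G] : Prop where
  com : ∀ g h l : G, (g * h * g⁻¹ * h⁻¹) * l = l * (g * h * g⁻¹ * h⁻¹)
  exp : ∀ g : G, g ^ p = 1

variable {p : ℕ} [hp : Fact p.Prime] [CharP F p]
variable {G : Type u} [Group G] {H : Type w} [Group H] [Finite G] [Finite H]

lemma two_ne (hp2 : p ≠ 2) : (2 : F) ≠ 0 := by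
  intro h
  have h1 : ((2 : ℕ) : F) = 0 := by exact_mod_cast h
  rw [CharP.cast_eq_zero_iff F p 2] at h1
  exact hp2 ((Nat.prime_dvd_prime_iff_eq hp.out Nat.prime_two).mp h1)

theorem nice_transfer (hp2 : p ≠ 2) (hG : Nice p G) (hc : Nat.card H = Nat.card G)
    (e : H →* MonoidAlgebra F G) (hspan : Submodule.span F (Set.range e) = ⊤)
    (haug : ∀ h, aug (e h) = 1) : Nice p H := by
  obtain ⟨Q, _, P, hP1, hP2⟩ := exists_quot (cmt G) (cen_cmt hG.com) com_mem_cmt
  have S : Sit0 p (cmt G) P e := ⟨cen_cmt hG.com, rfl, hG.exp, hP1, hP2, hspan, haug⟩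
  exact ⟨S.comH hc, S.expH hp2 hc⟩

theorem nice_hom (hp2 : p ≠ 2) (hG : Nice p G) (hH : Nice p H)
    (e : H →* MonoidAlgebra F G) (hspan : Submodule.span F (Set.range e) = ⊤)
    (haug : ∀ h, aug (e h) = 1) :
    ∃ (Q : Type u) (_ : CommGroup Q) (π : G →* Q) (φ : H →* Q), Function.Surjective π ∧
      (∀ g, π g = 1 ↔ ∀ l, g * l = l * g) ∧ Function.Surjective φ ∧
      ∀ x ∈ gr φ π, x.1 = 1 → x.2 = 1 := by
  have := Fintype.ofFinite G
  obtain ⟨Q, I, π, h1, h2⟩ := exists_quot (Subgroup.center G)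
    (fun c hc g => (Subgroup.mem_center_iff.mp hc g).symm)
    (fun g h => Subgroup.mem_center_iff.mpr fun l => (hG.com g h l).symm)
  have h3 : ∀ g, π g = 1 ↔ ∀ l, g * l = l * g := by
    intro g
    rw [h2, Subgroup.mem_center_iff]
    exact ⟨fun h l => (h l).symm, fun h l => (h l).symm⟩
  have S : Sit p (cmt G) π e := ⟨cen_cmt hG.com, com_mem_cmt, hG.exp, h1, h3, hspan, haug,
    hH.exp, hH.com⟩
  obtain ⟨φ, h4, h5⟩ := S.hom (two_ne hp2)
  exact ⟨Q, I, π, φ, h1, h3, h4, h5⟩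

theorem nice_card (hp2 : p ≠ 2) (hG : Nice p G) (hH : Nice p H)
    (e : H →* MonoidAlgebra F G) (hspan : Submodule.span F (Set.range e) = ⊤)
    (haug : ∀ h, aug (e h) = 1) : Nat.card (cmt G) ≤ Nat.card (cmt H) := by
  obtain ⟨Q, _, π, φ, h1, h2, h3, h4⟩ := nice_hom hp2 hG hH e hspan haug
  exact (gr_ge φ π h3).trans (gr_le φ π h4)

theorem nice_iso (hp2 : p ≠ 2) (hG : Nice p G) (hH : Nice p H) (hc : Nat.card H = Nat.card G)
    (e : H →* MonoidAlgebra F G) (hspan : Submodule.span F (Set.range e) = ⊤)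
    (haug : ∀ h, aug (e h) = 1) (hle : Nat.card (cmt H) ≤ Nat.card (cmt G)) :
    Nonempty (H ≃* G) := by
  obtain ⟨Q, _, π, φ, h1, h2, h3, h4⟩ := nice_hom hp2 hG hH e hspan haug
  have h5 := gr_inj φ π h3 ((gr_le φ π h4).trans hle)
  refine glue hc hH.exp hG.exp φ π h3 h1 ?_ (fun g => (h2 g).mp) h4 h5
  intro h hh k
  obtain ⟨g, hg⟩ := h1 (φ k)
  have h6 := h5 (h * k * h⁻¹ * k⁻¹, 1 * g * 1⁻¹ * g⁻¹)
    (Subgroup.subset_closure ⟨h, k, 1, g, by rw [hh, map_one], hg.symm, rfl⟩) (by simp)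
  have h7 : h * k * h⁻¹ * k⁻¹ = 1 := h6
  rw [mul_inv_eq_one, mul_inv_eq_iff_eq_mul] at h7
  exact h7

end

/-- **Main theorem.** -/
theorem main {F : Type v} [Field F] {p : ℕ} [hp : Fact p.Prime] [CharP F p] (hp2 : p ≠ 2)
    {G : Type u} [Group G] {H : Type w} [Group H] [Finite G] (hG : Nice p G)
    (θ : MonoidAlgebra F G ≃ₐ[F] MonoidAlgebra F H) : Nonempty (G ≃* H) := by
  have h1 : Module.Finite F (MonoidAlgebra F G) := Module.Finite.of_basis (MonoidAlgebra.basis G F)
  have h2 : Module.Finite F (MonoidAlgebra F H) := Module.Finite.equiv θ.toLinearEquiv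
  have h3 : Finite H := Module.Finite.finite_basis (MonoidAlgebra.basis H F)
  have hc : Nat.card H = Nat.card G := by
    rw [← Module.finrank_eq_nat_card_basis (MonoidAlgebra.basis H F),
      ← Module.finrank_eq_nat_card_basis (MonoidAlgebra.basis G F)]
    exact (LinearEquiv.finrank_eq θ.toLinearEquiv).symm
  obtain ⟨m, hm⟩ : ∃ m, Nat.card G = p ^ m := by
    have : IsPGroup p G := fun g => ⟨1, by rw [pow_one]; exact hG.exp g⟩
    exact IsPGroup.iff_card.mp this
  let e : H →* MonoidAlgebra F G :=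
    ((θ.symm : MonoidAlgebra F H →* MonoidAlgebra F G)).comp (MonoidAlgebra.of F H)
  let e' : G →* MonoidAlgebra F H :=
    ((θ : MonoidAlgebra F G →* MonoidAlgebra F H)).comp (MonoidAlgebra.of F G)
  have he : ∀ h, e h = θ.symm (MonoidAlgebra.single h 1) := fun h => rfl
  have he' : ∀ g, e' g = θ (MonoidAlgebra.single g 1) := fun h => rfl
  have hs : Submodule.span F (Set.range e) = ⊤ := by
    rw [eq_top_iff]
    intro y _
    have key : ∀ x : MonoidAlgebra F H, θ.symm x ∈ Submodule.span F (Set.range e) := by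
      intro x
      refine ind (P := fun x => θ.symm x ∈ Submodule.span F (Set.range e)) x (by simp) ?_ ?_
      · intro a b ha hb
        rw [map_add]
        exact Submodule.add_mem _ ha hb
      · intro a g
        rw [map_smul]
        exact Submodule.smul_mem _ _ (Submodule.subset_span ⟨g, rfl⟩)
    have := key (θ y)
    rwa [AlgEquiv.symm_apply_apply] at this
  have hs' : Submodule.span F (Set.range e') = ⊤ := by
    rw [eq_top_iff]
    intro y _
    have key : ∀ x : MonoidAlgebra F G, θ x ∈ Submodule.span F (Set.range e') := by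
      intro x
      refine ind (P := fun x => θ x ∈ Submodule.span F (Set.range e')) x (by simp) ?_ ?_
      · intro a b ha hb
        rw [map_add]
        exact Submodule.add_mem _ ha hb
      · intro a g
        rw [map_smul]
        exact Submodule.smul_mem _ _ (Submodule.subset_span ⟨g, rfl⟩)
    have := key (θ.symm y)
    rwa [AlgEquiv.apply_symm_apply] at this
  have ha : ∀ h, aug (e h) = 1 := by
    intro h
    apply aug_one_of (p := p) _ m
    rw [← map_pow, ← hm, ← hc, pow_card_eq_one', map_one]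
  have ha' : ∀ g, aug (e' g) = 1 := by
    intro g
    apply aug_one_of (p := p) _ m
    rw [← map_pow, ← hm, pow_card_eq_one', map_one]
  have hH : Nice p H := nice_transfer hp2 hG hc e hs ha
  obtain ⟨f⟩ := nice_iso hp2 hG hH hc e hs ha (nice_card hp2 hH hG e' hs' ha')
  exact ⟨f.symm⟩

end Pool.Agent.V1172.MIP
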