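import Pool.Agent.V1172.MIP.Jac

/-! The Poisson bracket on the group algebra of an abelian group and the symbol maps. -/

set_option linter.unusedSectionVars false
set_option linter.unusedSimpArgs false

namespace Pool.Agent.V1172.MIP

open Finset MonoidAlgebra

section Poisson
variable {F : Type*} [Field F] {Q : Type*} [CommGroup Q]

/-- `D φ q = φ(q) q`. -/
noncomputable def D (φ : Q → F) : MonoidAlgebra F Q →ₗ[F] MonoidAlgebra F Q :=
  (MonoidAlgebra.basis Q F).constr F (fun q => MonoidAlgebra.single q (φ q))

/-- the bracket `{q, r} = β(q, r) q r`. -/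
noncomputable def ad (β : Q → Q → F) :
    MonoidAlgebra F Q →ₗ[F] (Module.End F (MonoidAlgebra F Q)) :=
  (MonoidAlgebra.basis Q F).constr F
    (fun q => (LinearMap.mulLeft F (MonoidAlgebra.single q (1 : F))) ∘ₗ D (β q))

lemma D_single (φ : Q → F) (q : Q) : D φ (MonoidAlgebra.single q 1) = MonoidAlgebra.single q (φ q) := by
  have := (MonoidAlgebra.basis Q F).constr_basis F (fun q => MonoidAlgebra.single q (φ q)) q
  rw [MonoidAlgebra.basis_apply] at this
  exact this

lemma ad_single (β : Q → Q → F) (q r : Q) :
    ad β (MonoidAlgebra.single q 1) (MonoidAlgebra.single r 1) = MonoidAlgebra.single (q * r) (β q r) := by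
  have := (MonoidAlgebra.basis Q F).constr_basis F
    (fun q => (LinearMap.mulLeft F (MonoidAlgebra.single q (1 : F))) ∘ₗ D (β q)) q
  rw [MonoidAlgebra.basis_apply] at this
  have h2 : ad β (MonoidAlgebra.single q 1)
      = (LinearMap.mulLeft F (MonoidAlgebra.single q (1 : F))) ∘ₗ D (β q) := this
  rw [h2, LinearMap.comp_apply, D_single, LinearMap.mulLeft_apply, MonoidAlgebra.single_mul_single,
    one_mul]

/-- induction principle: additive, scalar multiples of group elements -/
lemma ind {G : Type*} {P : MonoidAlgebra F G → Prop} (x : MonoidAlgebra F G)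
    (h0 : P 0) (hadd : ∀ x y, P x → P y → P (x + y))
    (hs : ∀ (c : F) (g : G), P (c • MonoidAlgebra.single g 1)) : P x := by
  refine MonoidAlgebra.induction_linear x h0 (fun f g hf hg => hadd f g hf hg) fun a b => ?_
  have := hs b a
  rwa [MonoidAlgebra.smul_single, smul_eq_mul, mul_one] at this

/-- two linear maps which agree on group elements are equal -/
lemma lext {G M : Type*} [AddCommGroup M] [Module F M] {f g : MonoidAlgebra F G →ₗ[F] M}
    (h : ∀ x : G, f (MonoidAlgebra.single x 1) = g (MonoidAlgebra.single x 1)) : f = g := by
  refine (MonoidAlgebra.basis G F).ext fun i => ?_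
  rw [MonoidAlgebra.basis_apply]
  exact h i

/-- alternating biadditive forms -/
structure Alt (β : Q → Q → F) : Prop where
  self : ∀ q, β q q = 0
  left : ∀ q q' r, β (q * q') r = β q r + β q' r
  right : ∀ q r r', β q (r * r') = β q r + β q r'

lemma Alt.anti {β : Q → Q → F} (h : Alt β) (q r : Q) : β r q = -β q r := by
  have := h.self (q * r)
  rw [h.left, h.right, h.right, h.self, h.self] at this
  linear_combination this

lemma Alt.one_left {β : Q → Q → F} (h : Alt β) (r : Q) : β 1 r = 0 := by
  have := h.left 1 1 r
  rw [mul_one] at this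
  linear_combination -this

lemma single_eq_smul {G : Type*} (g : G) (c : F) :
    (MonoidAlgebra.single g c : MonoidAlgebra F G) = c • MonoidAlgebra.single g 1 := by
  rw [MonoidAlgebra.smul_single, smul_eq_mul, mul_one]

lemma ad_ad {β : Q → Q → F} (h : Alt β) (x y : MonoidAlgebra F Q) :
    ad β (ad β x y) = ad β x * ad β y - ad β y * ad β x := by
  refine ind (P := fun x => ad β (ad β x y) = ad β x * ad β y - ad β y * ad β x) x (by simp) ?_ ?_
  · intro a b ha hb
    rw [map_add, LinearMap.add_apply, map_add, ha, hb]
    noncomm_ring
  · intro c q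
    rw [map_smul, LinearMap.smul_apply, map_smul]
    rw [smul_mul_assoc, mul_smul_comm]
    refine Eq.trans ?_ (smul_sub _ _ _)
    congr 1
    refine ind (P := fun y => ad β (ad β (MonoidAlgebra.single q 1) y)
      = ad β (MonoidAlgebra.single q 1) * ad β y - ad β y * ad β (MonoidAlgebra.single q 1)) y
      (by simp) ?_ ?_
    · intro a b ha hb
      rw [map_add, map_add, ha, hb, map_add]
      noncomm_ring
    · intro c r
      rw [map_smul, map_smul, map_smul, smul_mul_assoc, mul_smul_comm]
      refine Eq.trans ?_ (smul_sub _ _ _)
      congr 1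
      refine lext fun s => ?_
      rw [LinearMap.sub_apply, Module.End.mul_apply, Module.End.mul_apply, ad_single, ad_single,
        ad_single]
      rw [single_eq_smul (q * r), single_eq_smul (r * s), single_eq_smul (q * s), map_smul,
        map_smul, map_smul, LinearMap.smul_apply, ad_single, ad_single, ad_single,
        MonoidAlgebra.smul_single, MonoidAlgebra.smul_single, MonoidAlgebra.smul_single,
        mul_left_comm r q s, mul_assoc q r s, ← MonoidAlgebra.single_sub, h.left, h.right, h.right]
      congr 1
      rw [h.anti q r]
      simp only [smul_eq_mul]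
      ring

lemma ad_mul {β : Q → Q → F} (h : Alt β) (x y z : MonoidAlgebra F Q) :
    ad β x (y * z) = ad β x y * z + y * ad β x z := by
  refine ind (P := fun x => ad β x (y * z) = ad β x y * z + y * ad β x z) x (by simp) ?_ ?_
  · intro a b ha hb
    rw [map_add, LinearMap.add_apply, LinearMap.add_apply, LinearMap.add_apply, ha, hb]
    ring
  · intro c q
    rw [map_smul, LinearMap.smul_apply, LinearMap.smul_apply, LinearMap.smul_apply,
      smul_mul_assoc, mul_smul_comm, ← smul_add]
    congr 1
    refine ind (P := fun y => ad β (MonoidAlgebra.single q 1) (y * z)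
      = ad β (MonoidAlgebra.single q 1) y * z + y * ad β (MonoidAlgebra.single q 1) z) y
      (by simp) ?_ ?_
    · intro a b ha hb
      rw [add_mul, map_add, map_add, ha, hb]
      ring
    · intro c r
      rw [smul_mul_assoc, map_smul, map_smul, smul_mul_assoc, smul_mul_assoc, ← smul_add]
      congr 1
      refine ind (P := fun z => ad β (MonoidAlgebra.single q 1) (MonoidAlgebra.single r 1 * z)
        = ad β (MonoidAlgebra.single q 1) (MonoidAlgebra.single r 1) * z
          + MonoidAlgebra.single r 1 * ad β (MonoidAlgebra.single q 1) z) z (by simp) ?_ ?_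
      · intro a b ha hb
        rw [mul_add, map_add, map_add, ha, hb]
        ring
      · intro c s
        rw [mul_smul_comm, map_smul, map_smul, mul_smul_comm, mul_smul_comm, ← smul_add]
        congr 1
        rw [MonoidAlgebra.single_mul_single, mul_one, ad_single, ad_single, ad_single,
          MonoidAlgebra.single_mul_single, MonoidAlgebra.single_mul_single, mul_one, one_mul,
          mul_assoc q r s, mul_left_comm r q s, ← MonoidAlgebra.single_add, h.right]

lemma ad_anti {β : Q → Q → F} (h : Alt β) (x y : MonoidAlgebra F Q) :
    ad β x y = - ad β y x := by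
  refine ind (P := fun x => ad β x y = - ad β y x) x (by simp) ?_ ?_
  · intro a b ha hb
    rw [map_add, LinearMap.add_apply, map_add, ha, hb]
    ring
  · intro c q
    rw [map_smul, LinearMap.smul_apply, map_smul, ← smul_neg]
    congr 1
    refine ind (P := fun y => ad β (MonoidAlgebra.single q 1) y = - ad β y (MonoidAlgebra.single q 1)) y
      (by simp) ?_ ?_
    · intro a b ha hb
      rw [map_add, map_add, LinearMap.add_apply, ha, hb]
      ring
    · intro c r
      rw [map_smul, map_smul, LinearMap.smul_apply, ← smul_neg]
      congr 1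
      rw [ad_single, ad_single, mul_comm r q, h.anti q r, MonoidAlgebra.single_neg, neg_neg]

lemma ad_self {β : Q → Q → F} (h : Alt β) (x : MonoidAlgebra F Q) : ad β x x = 0 := by
  refine ind (P := fun x => ad β x x = 0) x (by simp) ?_ ?_
  · intro a b ha hb
    simp only [map_add, LinearMap.add_apply]
    rw [ha, hb, ad_anti h a b]
    ring
  · intro c q
    simp only [map_smul, LinearMap.smul_apply]
    rw [ad_single, h.self, MonoidAlgebra.single_zero, smul_zero, smul_zero]

lemma ad_one {β : Q → Q → F} (h : Alt β) : ad β (1 : MonoidAlgebra F Q) = 0 := by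
  refine lext fun r => ?_
  rw [MonoidAlgebra.one_def, ad_single, h.one_left, MonoidAlgebra.single_zero]
  rfl

/-- naturality of the Jacobson coefficients under `ad` -/
lemma ad_cf {β : Q → Q → F} (h : Alt β) (x y : MonoidAlgebra F Q) (n : ℕ) :
    ∀ j, ad β (cf (fun a b => ad β a b) x y n j) = cf cm (ad β x) (ad β y) n j := by
  induction n with
  | zero =>
    intro j
    cases j with
    | zero => rfl
    | succ j => simp [cf]
  | succ n ih =>
    intro j
    cases j with
    | zero =>
      simp only [cf]
      rw [ad_ad h, ih]
      rfl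
    | succ j =>
      simp only [cf]
      rw [map_add, ad_ad h, ad_ad h, ih, ih]
      rfl

/-- `(c q D)^p` on group elements -/
lemma ad_pow_single {β : Q → Q → F} (h : Alt β) (c : F) (q r : Q) (n : ℕ) :
    ((ad β (c • MonoidAlgebra.single q 1)) ^ n) (MonoidAlgebra.single r 1)
      = MonoidAlgebra.single (q ^ n * r) ((c * β q r) ^ n) := by
  induction n with
  | zero => simp
  | succ n ih =>
    rw [pow_succ', Module.End.mul_apply, ih, single_eq_smul (q ^ n * r), map_smul, map_smul,
      LinearMap.smul_apply, ad_single]
    have e : β q (q ^ n * r) = β q r := by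
      have : ∀ m : ℕ, β q (q ^ m * r) = β q r := by
        intro m
        induction m with
        | zero => simp
        | succ m ihm => rw [pow_succ', mul_assoc, h.right, h.self, ihm, zero_add]
      exact this n
    rw [e, ← mul_assoc, ← pow_succ', MonoidAlgebra.smul_single, MonoidAlgebra.smul_single]
    congr 1
    simp only [smul_eq_mul]
    ring

end Poisson

end Pool.Agent.V1172.MIP
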