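import Pool.Agent.V1172.MIP.Poi

/-! Symbol maps on the group algebra of a group with a central subgroup containing the commutators. -/

set_option linter.unusedSectionVars false
set_option linter.unusedSimpArgs false

namespace Pool.Agent.V1172.MIP

open Finset MonoidAlgebra

variable {F : Type*} [Field F] {G : Type*} [Group G] {Q : Type*} [CommGroup Q]

/-- augmentation -/
noncomputable def aug : MonoidAlgebra F G →ₐ[F] F := MonoidAlgebra.lift F F G 1

lemma aug_single (g : G) (c : F) : aug (MonoidAlgebra.single g c) = c := by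
  unfold aug
  rw [MonoidAlgebra.lift_single]
  simp

/-- `a ^ k / k!` -/
noncomputable def ek (k : ℕ) (a : F) : F := a ^ k / (k.factorial : F)

lemma fact_ne (p : ℕ) [hp : Fact p.Prime] [CharP F p] {k : ℕ} (hk : k < p) :
    (k.factorial : F) ≠ 0 := by
  intro h
  have := (CharP.cast_eq_zero_iff F p _).mp h
  rw [hp.out.dvd_factorial] at this
  omega

lemma ek_zero (a : F) : ek 0 a = 1 := by simp [ek]
lemma ek_one (a : F) : ek 1 a = a := by simp [ek]

lemma ek_add (p : ℕ) [hp : Fact p.Prime] [CharP F p] {k : ℕ} (hk : k < p) (a b : F) :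
    ek k (a + b) = ∑ j ∈ range (k + 1), ek j a * ek (k - j) b := by
  unfold ek
  rw [add_pow, Finset.sum_div]
  refine sum_congr rfl fun m hm => ?_
  rw [mem_range] at hm
  have h1 := fact_ne (F := F) p hk
  have h2 := fact_ne (F := F) p (k := m) (by omega)
  have h3 := fact_ne (F := F) p (k := k - m) (by omega)
  have h4 : (k.choose m : F) * (m.factorial : F) * ((k - m).factorial : F) = (k.factorial : F) := by
    have := congrArg (Nat.cast : ℕ → F)
      (Nat.choose_mul_factorial_mul_factorial (n := k) (k := m) (by omega))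
    push_cast at this
    exact this
  rw [div_mul_div_comm, div_eq_div_iff h1 (mul_ne_zero h2 h3), ← h4]
  ring

/-- the data: a central subgroup `C` containing all commutators, a map to an abelian group
killing `C`, a function `κ` with `κ(c g) = κ(c) + κ(g)` and the induced form `β`. -/
structure Dat (C : Subgroup G) (π : G →* Q) (κ : G → F) (β : Q → Q → F) : Prop where
  cen : ∀ c ∈ C, ∀ g, c * g = g * c
  com : ∀ g h : G, g * h * g⁻¹ * h⁻¹ ∈ C
  pi : ∀ c ∈ C, π c = 1
  kap : ∀ c ∈ C, ∀ g, κ (c * g) = κ c + κ g
  beta : ∀ g h, β (π g) (π h) = κ (g * h * g⁻¹ * h⁻¹)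
  alt : Alt β

/-- the powers of the ideal generated by `c - 1`, `c ∈ C`. -/
noncomputable def IC (F : Type*) [Field F] {G : Type*} [Group G] (C : Subgroup G) :
    ℕ → Submodule F (MonoidAlgebra F G)
  | 0 => ⊤
  | n + 1 => Submodule.span F {y | ∃ c ∈ C, ∃ x ∈ IC F C n, y = (MonoidAlgebra.single c 1 - 1) * x}

/-- the symbol maps -/
noncomputable def Om (π : G →* Q) (κ : G → F) (k : ℕ) :
    MonoidAlgebra F G →ₗ[F] MonoidAlgebra F Q :=
  (MonoidAlgebra.basis G F).constr F (fun g => MonoidAlgebra.single (π g) (ek k (κ g)))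

lemma Om_single (π : G →* Q) (κ : G → F) (k : ℕ) (g : G) :
    Om π κ k (MonoidAlgebra.single g 1) = MonoidAlgebra.single (π g) (ek k (κ g)) := by
  have := (MonoidAlgebra.basis G F).constr_basis F
    (fun g => MonoidAlgebra.single (π g) (ek k (κ g))) g
  rw [MonoidAlgebra.basis_apply] at this
  exact this

/-- the induced map of group algebras -/
noncomputable def pm (F : Type*) [Field F] {G Q : Type*} [Group G] [CommGroup Q] (π : G →* Q) :
    MonoidAlgebra F G →ₐ[F] MonoidAlgebra F Q :=
  MonoidAlgebra.mapDomainAlgHom F F π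

lemma pm_single (π : G →* Q) (g : G) (c : F) :
    pm F π (MonoidAlgebra.single g c) = MonoidAlgebra.single (π g) c := by
  unfold pm
  simp

lemma Om_zero_eq (π : G →* Q) (κ : G → F) (x : MonoidAlgebra F G) :
    Om π κ 0 x = pm F π x := by
  have : Om π κ 0 = (pm F π).toLinearMap := by
    refine lext fun g => ?_
    rw [Om_single, ek_zero, AlgHom.toLinearMap_apply, pm_single]
  rw [this]
  rfl

section
variable {C : Subgroup G} {π : G →* Q} {κ : G → F} {β : Q → Q → F}

lemma Om_mul (p : ℕ) [hp : Fact p.Prime] [CharP F p] (d : Dat C π κ β) {i : ℕ} (hi : i < p)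
    {c : G} (hc : c ∈ C) (x : MonoidAlgebra F G) :
    Om π κ i (MonoidAlgebra.single c 1 * x)
      = ∑ j ∈ range (i + 1), ek j (κ c) • Om π κ (i - j) x := by
  refine ind (P := fun x => Om π κ i (MonoidAlgebra.single c 1 * x)
      = ∑ j ∈ range (i + 1), ek j (κ c) • Om π κ (i - j) x) x (by simp) ?_ ?_
  · intro a b ha hb
    rw [mul_add, map_add, ha, hb, ← sum_add_distrib]
    refine sum_congr rfl fun j _ => ?_
    rw [map_add, smul_add]
  · intro a g
    rw [mul_smul_comm, map_smul, MonoidAlgebra.single_mul_single, mul_one, Om_single, map_mul,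
      d.pi c hc, one_mul, d.kap c hc, ek_add p hi]
    rw [single_eq_smul, smul_smul]
    have : ∀ j, ek j (κ c) • Om π κ (i - j) (a • MonoidAlgebra.single g 1)
        = (a * (ek j (κ c) * ek (i - j) (κ g))) • MonoidAlgebra.single (π g) 1 := by
      intro j
      rw [map_smul, Om_single, single_eq_smul, smul_smul, smul_smul]
      congr 1
      ring
    simp_rw [this]
    rw [← sum_smul, ← mul_sum]

lemma Om_sub (p : ℕ) [hp : Fact p.Prime] [CharP F p] (d : Dat C π κ β) {i : ℕ} (hi : i < p)
    {c : G} (hc : c ∈ C) (x : MonoidAlgebra F G) :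
    Om π κ i ((MonoidAlgebra.single c 1 - 1) * x)
      = ∑ j ∈ range i, ek (j + 1) (κ c) • Om π κ (i - 1 - j) x := by
  rw [sub_mul, one_mul, map_sub, Om_mul p d hi hc, sum_range_succ', ek_zero, one_smul, Nat.sub_zero,
    add_sub_cancel_right]
  refine sum_congr rfl fun j _ => ?_
  rw [Nat.sub_sub, add_comm 1 j]

lemma Om_vanish (p : ℕ) [hp : Fact p.Prime] [CharP F p] (d : Dat C π κ β) (k : ℕ) :
    ∀ i, i < k → i < p → ∀ x ∈ IC F C k, Om π κ i x = 0 := by
  induction k with
  | zero => intro i hi; omega
  | succ k ih =>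
    intro i hi hip x hx
    induction hx using Submodule.span_induction with
    | mem y hy =>
      obtain ⟨c, hc, z, hz, rfl⟩ := hy
      rw [Om_sub p d hip hc]
      refine sum_eq_zero fun j hj => ?_
      rw [mem_range] at hj
      rw [ih (i - 1 - j) (by omega) (by omega) z hz, smul_zero]
    | zero => simp
    | add a b _ _ ha hb => rw [map_add, ha, hb, add_zero]
    | smul a b _ hb => rw [map_smul, hb, smul_zero]

lemma Om_succ (p : ℕ) [hp : Fact p.Prime] [CharP F p] (d : Dat C π κ β) {k : ℕ} (hk : k + 1 < p)
    {c : G} (hc : c ∈ C) {x : MonoidAlgebra F G} (hx : x ∈ IC F C k) :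
    Om π κ (k + 1) ((MonoidAlgebra.single c 1 - 1) * x) = κ c • Om π κ k x := by
  rw [Om_sub p d hk hc, sum_range_succ', ek_one]
  have : ∑ j ∈ range k, ek (j + 1 + 1) (κ c) • Om π κ (k + 1 - 1 - (j + 1)) x = 0 := by
    refine sum_eq_zero fun j hj => ?_
    rw [mem_range] at hj
    rw [Om_vanish p d k _ (by omega) (by omega) x hx, smul_zero]
  rw [this, zero_add]
  rfl

lemma cen_comm (d : Dat C π κ β) {c : G} (hc : c ∈ C) (x : MonoidAlgebra F G) :
    MonoidAlgebra.single c (1 : F) * x = x * MonoidAlgebra.single c 1 := by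
  refine ind (P := fun x => MonoidAlgebra.single c (1 : F) * x = x * MonoidAlgebra.single c 1) x
    (by simp) ?_ ?_
  · intro a b ha hb
    rw [mul_add, add_mul, ha, hb]
  · intro a g
    rw [mul_smul_comm, smul_mul_assoc, MonoidAlgebra.single_mul_single,
      MonoidAlgebra.single_mul_single, d.cen c hc g]

lemma mem_IC_succ {k : ℕ} {c : G} (hc : c ∈ C) {x : MonoidAlgebra F G} (hx : x ∈ IC F C k) :
    (MonoidAlgebra.single c 1 - 1) * x ∈ IC F C (k + 1) :=
  Submodule.subset_span ⟨c, hc, x, hx, rfl⟩

lemma IC_mul_left (d : Dat C π κ β) (k : ℕ) (u : MonoidAlgebra F G) :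
    ∀ x ∈ IC F C k, u * x ∈ IC F C k := by
  induction k with
  | zero => intro x _; trivial
  | succ k ih =>
    intro x hx
    induction hx using Submodule.span_induction with
    | mem y hy =>
      obtain ⟨c, hc, z, hz, rfl⟩ := hy
      have : u * ((MonoidAlgebra.single c 1 - 1) * z) = (MonoidAlgebra.single c 1 - 1) * (u * z) := by
        rw [← mul_assoc, mul_sub, ← cen_comm d hc, mul_one, ← mul_assoc, sub_mul, sub_mul, sub_mul,
          one_mul]
      rw [this]
      exact mem_IC_succ hc (ih z hz)
    | zero => simp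
    | add a b _ _ ha hb => rw [mul_add]; exact Submodule.add_mem _ ha hb
    | smul a b _ hb => rw [mul_smul_comm]; exact Submodule.smul_mem _ _ hb

lemma IC_mul_right (k : ℕ) (u : MonoidAlgebra F G) :
    ∀ x ∈ IC F C k, x * u ∈ IC F C k := by
  induction k with
  | zero => intro x _; trivial
  | succ k ih =>
    intro x hx
    induction hx using Submodule.span_induction with
    | mem y hy =>
      obtain ⟨c, hc, z, hz, rfl⟩ := hy
      rw [mul_assoc]
      exact mem_IC_succ hc (ih z hz)
    | zero => simp
    | add a b _ _ ha hb => rw [add_mul]; exact Submodule.add_mem _ ha hb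
    | smul a b _ hb => rw [smul_mul_assoc]; exact Submodule.smul_mem _ _ hb

/-- the commutator of two group elements -/
lemma comm_single (g h : G) :
    MonoidAlgebra.single g (1 : F) * MonoidAlgebra.single h 1
      - MonoidAlgebra.single h 1 * MonoidAlgebra.single g 1
      = (MonoidAlgebra.single (g * h * g⁻¹ * h⁻¹) 1 - 1) * MonoidAlgebra.single (h * g) 1 := by
  rw [MonoidAlgebra.single_mul_single, MonoidAlgebra.single_mul_single, sub_mul, one_mul,
    MonoidAlgebra.single_mul_single, mul_one]
  congr 2
  group

lemma IC_comm (d : Dat C π κ β) (k : ℕ) (u : MonoidAlgebra F G) :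
    ∀ x ∈ IC F C k, u * x - x * u ∈ IC F C (k + 1) := by
  induction k with
  | zero =>
    intro x _
    refine ind (P := fun u => u * x - x * u ∈ IC F C (0 + 1)) u (by simp) ?_ ?_
    · intro a b ha hb
      have : (a + b) * x - x * (a + b) = (a * x - x * a) + (b * x - x * b) := by noncomm_ring
      rw [this]
      exact Submodule.add_mem _ ha hb
    · intro a g
      rw [smul_mul_assoc, mul_smul_comm, ← smul_sub]
      refine Submodule.smul_mem _ _ ?_
      refine ind (P := fun x => MonoidAlgebra.single g 1 * x - x * MonoidAlgebra.single g 1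
        ∈ IC F C (0 + 1)) x (by simp) ?_ ?_
      · intro a b ha hb
        have : MonoidAlgebra.single g (1 : F) * (a + b) - (a + b) * MonoidAlgebra.single g 1
          = (MonoidAlgebra.single g 1 * a - a * MonoidAlgebra.single g 1)
            + (MonoidAlgebra.single g 1 * b - b * MonoidAlgebra.single g 1) := by noncomm_ring
        rw [this]
        exact Submodule.add_mem _ ha hb
      · intro a h
        rw [smul_mul_assoc, mul_smul_comm, ← smul_sub, comm_single]
        exact Submodule.smul_mem _ _ (mem_IC_succ (d.com g h) trivial)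
  | succ k ih =>
    intro x hx
    induction hx using Submodule.span_induction with
    | mem y hy =>
      obtain ⟨c, hc, z, hz, rfl⟩ := hy
      have : u * ((MonoidAlgebra.single c 1 - 1) * z) - (MonoidAlgebra.single c 1 - 1) * z * u
          = (MonoidAlgebra.single c 1 - 1) * (u * z - z * u) := by
        have h1 := cen_comm d hc u
        calc u * ((MonoidAlgebra.single c 1 - 1) * z) - (MonoidAlgebra.single c 1 - 1) * z * u
            = (u * MonoidAlgebra.single c 1 - u) * z - (MonoidAlgebra.single c 1 - 1) * z * u := by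
              noncomm_ring
          _ = _ := by rw [← h1]; noncomm_ring
      rw [this]
      exact mem_IC_succ hc (ih z hz)
    | zero => simp
    | add a b _ _ ha hb =>
      have : u * (a + b) - (a + b) * u = (u * a - a * u) + (u * b - b * u) := by noncomm_ring
      rw [this]
      exact Submodule.add_mem _ ha hb
    | smul a b _ hb =>
      rw [mul_smul_comm, smul_mul_assoc, ← smul_sub]
      exact Submodule.smul_mem _ _ hb

lemma Om_comm (p : ℕ) [hp : Fact p.Prime] [CharP F p] (d : Dat C π κ β) (k : ℕ)
    (u : MonoidAlgebra F G) (hk : k + 1 < p) :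
    ∀ x ∈ IC F C k, Om π κ (k + 1) (u * x - x * u) = ad β (pm F π u) (Om π κ k x) := by
  induction k with
  | zero =>
    intro x _
    refine ind (P := fun u => Om π κ (0 + 1) (u * x - x * u) = ad β (pm F π u) (Om π κ 0 x)) u
      (by simp) ?_ ?_
    · intro a b ha hb
      have : (a + b) * x - x * (a + b) = (a * x - x * a) + (b * x - x * b) := by noncomm_ring
      rw [this, map_add, ha, hb, map_add, map_add, LinearMap.add_apply]
    · intro a g
      rw [smul_mul_assoc, mul_smul_comm, ← smul_sub, map_smul, map_smul, map_smul,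
        LinearMap.smul_apply]
      congr 1
      refine ind (P := fun x => Om π κ (0 + 1) (MonoidAlgebra.single g 1 * x
        - x * MonoidAlgebra.single g 1)
        = ad β (pm F π (MonoidAlgebra.single g 1)) (Om π κ 0 x)) x (by simp) ?_ ?_
      · intro a b ha hb
        have : MonoidAlgebra.single g (1 : F) * (a + b) - (a + b) * MonoidAlgebra.single g 1
          = (MonoidAlgebra.single g 1 * a - a * MonoidAlgebra.single g 1)
            + (MonoidAlgebra.single g 1 * b - b * MonoidAlgebra.single g 1) := by noncomm_ring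
        rw [this, map_add, ha, hb, map_add, map_add]
      · intro a h
        rw [smul_mul_assoc, mul_smul_comm, ← smul_sub, comm_single, map_smul, map_smul, map_smul]
        congr 1
        rw [Om_succ p d hk (d.com g h) (x := MonoidAlgebra.single (h * g) 1) trivial, Om_single,
          Om_single, pm_single, ek_zero, ek_zero, ad_single, d.beta, MonoidAlgebra.smul_single,
          smul_eq_mul, mul_one, map_mul, mul_comm (π g)]
  | succ k ih =>
    intro x hx
    induction hx using Submodule.span_induction with
    | mem y hy =>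
      obtain ⟨c, hc, z, hz, rfl⟩ := hy
      have : u * ((MonoidAlgebra.single c 1 - 1) * z) - (MonoidAlgebra.single c 1 - 1) * z * u
          = (MonoidAlgebra.single c 1 - 1) * (u * z - z * u) := by
        have h1 := cen_comm d hc u
        calc u * ((MonoidAlgebra.single c 1 - 1) * z) - (MonoidAlgebra.single c 1 - 1) * z * u
            = (u * MonoidAlgebra.single c 1 - u) * z - (MonoidAlgebra.single c 1 - 1) * z * u := by
              noncomm_ring
          _ = _ := by rw [← h1]; noncomm_ring
      rw [this, Om_succ p d hk hc (IC_comm d k u z hz), ih (by omega) z hz,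
        Om_succ p d (by omega) hc hz, map_smul]
    | zero => simp
    | add a b _ _ ha hb =>
      have : u * (a + b) - (a + b) * u = (u * a - a * u) + (u * b - b * u) := by noncomm_ring
      rw [this, map_add, ha, hb, map_add, map_add]
    | smul a b _ hb =>
      rw [mul_smul_comm, smul_mul_assoc, ← smul_sub, map_smul, map_smul, map_smul, hb]

lemma cf_mem (d : Dat C π κ β) (u v : MonoidAlgebra F G) (n : ℕ) :
    ∀ j, cf cm u v n j ∈ IC F C n := by
  induction n with
  | zero => intro j; trivial
  | succ n ih =>
    intro j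
    cases j with
    | zero => exact IC_comm d n v _ (ih 0)
    | succ j => exact Submodule.add_mem _ (IC_comm d n u _ (ih j)) (IC_comm d n v _ (ih (j + 1)))

lemma Om_cf (p : ℕ) [hp : Fact p.Prime] [CharP F p] (d : Dat C π κ β) (u v : MonoidAlgebra F G)
    (n : ℕ) (hn : n < p) :
    ∀ j, Om π κ n (cf cm u v n j) = cf (fun a b => ad β a b) (pm F π u) (pm F π v) n j := by
  induction n with
  | zero =>
    intro j
    cases j with
    | zero => exact Om_zero_eq π κ u
    | succ j => simp [cf]
  | succ n ih =>
    intro j
    cases j with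
    | zero =>
      exact (Om_comm p d n v hn _ (cf_mem d u v n 0)).trans (congrArg _ (ih (by omega) 0))
    | succ j =>
      refine (map_add (Om π κ (n + 1)) (cm u (cf cm u v n j)) (cm v (cf cm u v n (j + 1)))).trans ?_
      exact congrArg₂ (· + ·)
        ((Om_comm p d n u hn _ (cf_mem d u v n j)).trans (congrArg _ (ih (by omega) j)))
        ((Om_comm p d n v hn _ (cf_mem d u v n (j + 1))).trans (congrArg _ (ih (by omega) (j + 1))))

end

end Pool.Agent.V1172.MIP
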